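import Mathlib

namespace Pool.Agent.H994.Driven

open Matrix MeasureTheory
open scoped ComplexOrder

/-- The dissipator `𝒟 = ∑_j 𝒟_{L_j}`. -/
noncomputable def dissip {d m : ℕ} (L : Fin m → Matrix (Fin d) (Fin d) ℂ)
    (X : Matrix (Fin d) (Fin d) ℂ) : Matrix (Fin d) (Fin d) ℂ :=
  ∑ j, (L j * X * (L j)ᴴ - (1/2 : ℂ) • ((L j)ᴴ * L j * X + X * ((L j)ᴴ * L j)))

/-- The Lindbladian `-i[H, ·] + 𝒟`. -/
noncomputable def lind {d m : ℕ} (L : Fin m → Matrix (Fin d) (Fin d) ℂ)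
    (H X : Matrix (Fin d) (Fin d) ℂ) : Matrix (Fin d) (Fin d) ℂ :=
  -(Complex.I • (H * X - X * H)) + dissip L X

/-- An admissible drive: Hermitian for `t ≥ 0`, measurable and locally bounded. -/
def IsDrive {d : ℕ} (H : ℝ → Matrix (Fin d) (Fin d) ℂ) : Prop :=
  (∀ t, 0 ≤ t → (H t).IsHermitian) ∧ (∀ i j, Measurable (fun t => H t i j)) ∧
    ∀ T : ℝ, ∃ C : ℝ, ∀ t, 0 ≤ t → t ≤ T → ∀ i j, ‖H t i j‖ ≤ C

/-- `E t s` is the propagator of `∂_t E = ℒ_t ∘ E`, `E s s = id`, in integral form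
(all integrals are taken entry by entry). -/
def IsPropagator {d m : ℕ} (L : Fin m → Matrix (Fin d) (Fin d) ℂ)
    (H : ℝ → Matrix (Fin d) (Fin d) ℂ)
    (E : ℝ → ℝ → (Matrix (Fin d) (Fin d) ℂ →ₗ[ℂ] Matrix (Fin d) (Fin d) ℂ)) : Prop :=
  ∀ s t : ℝ, 0 ≤ s → s ≤ t → ∀ (X : Matrix (Fin d) (Fin d) ℂ) (i j : Fin d),
    IntervalIntegrable (fun r => lind L (H r) (E r s X) i j) volume s t ∧
    E t s X i j = X i j + ∫ r in s..t, lind L (H r) (E r s X) i j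

/-- Density matrices. -/
def IsDensity {d : ℕ} (ρ : Matrix (Fin d) (Fin d) ℂ) : Prop := ρ.PosSemidef ∧ ρ.trace = 1

/-- The trace norm: the sum of the singular values. -/
noncomputable def traceNorm {d : ℕ} (A : Matrix (Fin d) (Fin d) ℂ) : ℝ :=
  ∑ i, √((Matrix.isHermitian_conjTranspose_mul_self A).eigenvalues i)

/-- Exponential contractivity of a propagator. -/
def ExpContractive {d : ℕ}
    (E : ℝ → ℝ → (Matrix (Fin d) (Fin d) ℂ →ₗ[ℂ] Matrix (Fin d) (Fin d) ℂ)) : Prop :=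
  ∃ C : ℝ, 0 < C ∧ ∃ γ : ℝ, 0 < γ ∧ ∀ s t : ℝ, 0 ≤ s → s ≤ t →
    ∀ ρ σ : Matrix (Fin d) (Fin d) ℂ, IsDensity ρ → IsDensity σ →
      traceNorm (E t s ρ - E t s σ) ≤ C * Real.exp (-(γ * (t - s))) * traceNorm (ρ - σ)

/-- Hamiltonian-independent contractivity of the dissipator of `L`. -/
def HamIndepContractive {d m : ℕ} (L : Fin m → Matrix (Fin d) (Fin d) ℂ) : Prop :=
  ∀ H : ℝ → Matrix (Fin d) (Fin d) ℂ, IsDrive H →
    ∀ E : ℝ → ℝ → (Matrix (Fin d) (Fin d) ℂ →ₗ[ℂ] Matrix (Fin d) (Fin d) ℂ),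
      IsPropagator L H E → ExpContractive E

end Pool.Agent.H994.Driven
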