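import Mathlib
import Pool.Agent.H994.Driven.Defs

namespace Pool.Agent.H994.Driven

open Matrix MeasureTheory
open scoped ComplexOrder

/-! ### Spectral sums -/

section spec
variable {d : ℕ}

lemma spectral {X : Matrix (Fin d) (Fin d) ℂ} (hX : X.IsHermitian) :
    ∃ (V : Matrix (Fin d) (Fin d) ℂ) (lam : Fin d → ℝ), Vᴴ * V = 1 ∧
      Vᴴ * X * V = Matrix.diagonal (fun i => (lam i : ℂ)) := by
  refine ⟨(hX.eigenvectorUnitary : Matrix (Fin d) (Fin d) ℂ), hX.eigenvalues, ?_, ?_⟩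
  · exact Unitary.coe_star_mul_self _
  · have h := hX.conjStarAlgAut_star_eigenvectorUnitary
    rw [Unitary.conjStarAlgAut_star_apply] at h
    exact h

/-- Row norms of a unitary matrix. -/
lemma row_one {W : Matrix (Fin d) (Fin d) ℂ} (hW : Wᴴ * W = 1) (i : Fin d) :
    ∑ k, ‖W i k‖^2 = 1 := by
  have h : W * Wᴴ = 1 := mul_eq_one_comm.1 hW
  have h1 := congrFun (congrFun h i) i
  rw [Matrix.mul_apply, Matrix.one_apply_eq] at h1
  have h2 : ∀ k, W i k * Wᴴ k i = ((‖W i k‖^2 : ℝ) : ℂ) := by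
    intro k
    rw [Matrix.conjTranspose_apply]
    push_cast
    exact Complex.mul_conj' _
  simp only [h2] at h1
  exact_mod_cast h1

lemma col_one {W : Matrix (Fin d) (Fin d) ℂ} (hW : Wᴴ * W = 1) (k : Fin d) :
    ∑ i, ‖W i k‖^2 = 1 := by
  have h1 := congrFun (congrFun hW k) k
  rw [Matrix.mul_apply, Matrix.one_apply_eq] at h1
  have h2 : ∀ i, Wᴴ k i * W i k = ((‖W i k‖^2 : ℝ) : ℂ) := by
    intro i
    rw [Matrix.conjTranspose_apply]
    push_cast
    exact Complex.conj_mul' _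
  simp only [h2] at h1
  exact_mod_cast h1

lemma entry_le_one {W : Matrix (Fin d) (Fin d) ℂ} (hW : Wᴴ * W = 1) (i k : Fin d) : ‖W i k‖ ≤ 1 := by
  have h := row_one hW i
  have h2 : ‖W i k‖^2 ≤ 1 := by
    rw [← h]
    exact Finset.single_le_sum (f := fun k => ‖W i k‖^2) (fun _ _ => sq_nonneg _) (Finset.mem_univ k)
  nlinarith [norm_nonneg (W i k)]

/-- The sum of diagonal entries of `Uᴴ X U` over `A`. -/
noncomputable def Gf (U : Matrix (Fin d) (Fin d) ℂ) (A : Finset (Fin d))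
    (X : Matrix (Fin d) (Fin d) ℂ) : ℝ := ∑ i ∈ A, ((Uᴴ * X * U) i i).re

lemma exists_bottom (lam : Fin d → ℝ) {k : ℕ} (hk1 : 1 ≤ k) (hk : k ≤ d) :
    ∃ (A : Finset (Fin d)) (μ : ℝ), A.card = k ∧ (∀ i ∈ A, lam i ≤ μ) ∧ (∀ i, i ∉ A → μ ≤ lam i) := by
  set σ := Tuple.sort lam with hσ
  have hm : Monotone (lam ∘ σ) := Tuple.monotone_sort lam
  refine ⟨(Finset.univ.filter (fun i : Fin d => (i:ℕ) < k)).map σ.toEmbedding,
    lam (σ ⟨k-1, by omega⟩), ?_, ?_, ?_⟩
  · rw [Finset.card_map]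
    have : (Finset.univ.filter (fun i : Fin d => (i:ℕ) < k)).card = k := by
      rw [Fin.card_filter_val_lt]; omega
    exact this
  · intro i hi
    rw [Finset.mem_map] at hi
    obtain ⟨j, hj, rfl⟩ := hi
    rw [Finset.mem_filter] at hj
    exact hm (show j ≤ ⟨k-1, by omega⟩ from by
      rw [Fin.le_def]; have := hj.2; simp; omega)
  · intro i hi
    have h1 : ¬ ((σ.symm i : Fin d) : ℕ) < k := by
      intro h
      apply hi
      rw [Finset.mem_map]
      exact ⟨σ.symm i, by simp [h], by simp⟩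
    have h2 : (⟨k-1, by omega⟩ : Fin d) ≤ σ.symm i := by
      rw [Fin.le_def]; simp; omega
    have h3 := hm h2
    simpa using h3

lemma conj_diag {V U X : Matrix (Fin d) (Fin d) ℂ} (hV : Vᴴ * V = 1) {lam : Fin d → ℝ}
    (hX : Vᴴ * X * V = Matrix.diagonal (fun i => (lam i : ℂ))) (i : Fin d) :
    ((Uᴴ * X * U) i i).re = ∑ m, ‖(Vᴴ * U) m i‖^2 * lam m := by
  have hV' : V * Vᴴ = 1 := mul_eq_one_comm.1 hV
  have h1 : Uᴴ * X * U = (Vᴴ * U)ᴴ * Matrix.diagonal (fun i => (lam i : ℂ)) * (Vᴴ * U) := by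
    rw [← hX, Matrix.conjTranspose_mul, Matrix.conjTranspose_conjTranspose]
    calc Uᴴ * X * U = Uᴴ * (V * Vᴴ) * X * (V * Vᴴ) * U := by rw [hV']; simp
      _ = Uᴴ * V * (Vᴴ * X * V) * (Vᴴ * U) := by simp only [Matrix.mul_assoc]
  rw [h1, Matrix.mul_apply, Complex.re_sum]
  apply Finset.sum_congr rfl
  intro m _
  rw [Matrix.mul_diagonal, Matrix.conjTranspose_apply]
  have : star ((Vᴴ * U) m i) * (lam m : ℂ) * (Vᴴ * U) m i = ((‖(Vᴴ * U) m i‖^2 * lam m : ℝ) : ℂ) := by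
    have h2 : star ((Vᴴ * U) m i) * (Vᴴ * U) m i = ((‖(Vᴴ * U) m i‖^2 : ℝ) : ℂ) := by
      push_cast; exact Complex.conj_mul' _
    rw [Complex.ofReal_mul, ← h2]; ring
  rw [this, Complex.ofReal_re]

/-- Ky Fan's inequality. -/
lemma kyfan {V U X : Matrix (Fin d) (Fin d) ℂ} (hV : Vᴴ * V = 1) (hU : Uᴴ * U = 1) {lam : Fin d → ℝ}
    (hX : Vᴴ * X * V = Matrix.diagonal (fun i => (lam i : ℂ))) {A B : Finset (Fin d)} {μ : ℝ}
    (hA1 : ∀ i ∈ A, lam i ≤ μ) (hA2 : ∀ i, i ∉ A → μ ≤ lam i) (hAB : B.card = A.card) :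
    ∑ i ∈ A, lam i ≤ Gf U B X := by
  have hV' : V * Vᴴ = 1 := mul_eq_one_comm.1 hV
  have hW : (Vᴴ * U)ᴴ * (Vᴴ * U) = 1 := by
    rw [Matrix.conjTranspose_mul, Matrix.conjTranspose_conjTranspose]
    calc Uᴴ * V * (Vᴴ * U) = Uᴴ * (V * Vᴴ) * U := by simp only [Matrix.mul_assoc]
      _ = 1 := by rw [hV']; simpa using hU
  unfold Gf
  simp only [conj_diag (U := U) hV hX]
  rw [Finset.sum_comm]
  simp only [← Finset.sum_mul]
  set p : Fin d → ℝ := fun m => ∑ i ∈ B, ‖(Vᴴ * U) m i‖^2 with hp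
  have hp0 : ∀ m, 0 ≤ p m := fun m => Finset.sum_nonneg (fun _ _ => sq_nonneg _)
  have hp1 : ∀ m, p m ≤ 1 := by
    intro m
    rw [← row_one hW m]
    exact Finset.sum_le_univ_sum_of_nonneg (fun _ => sq_nonneg _)
  have hps : ∑ m, p m = A.card := by
    simp only [hp]
    rw [Finset.sum_comm]
    simp only [col_one hW]
    rw [Finset.sum_const, hAB]; simp
  have key : ∑ m, (lam m - μ) * (p m - if m ∈ A then 1 else 0) =
      ∑ m, p m * lam m - ∑ i ∈ A, lam i := by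
    have e1 : ∀ m, (lam m - μ) * (p m - if m ∈ A then 1 else 0) =
        p m * lam m - (if m ∈ A then lam m else 0) - μ * p m + (if m ∈ A then μ else 0) := by
      intro m; split_ifs <;> ring
    simp only [e1]
    rw [Finset.sum_add_distrib, Finset.sum_sub_distrib, Finset.sum_sub_distrib, ← Finset.mul_sum,
      hps, Finset.sum_ite_mem, Finset.sum_ite_mem, Finset.univ_inter, Finset.sum_const]
    simp; ring
  have hnn : 0 ≤ ∑ m, (lam m - μ) * (p m - if m ∈ A then 1 else 0) := by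
    apply Finset.sum_nonneg
    intro m _
    by_cases hm : m ∈ A
    · rw [if_pos hm]
      exact mul_nonneg_of_nonpos_of_nonpos (by linarith [hA1 m hm]) (by linarith [hp1 m])
    · rw [if_neg hm]
      exact mul_nonneg (by linarith [hA2 m hm]) (by linarith [hp0 m])
  have e2 : ∑ m, p m * lam m = ∑ x, (∑ i ∈ B, ‖(Vᴴ * U) x i‖^2) * lam x := rfl
  rw [← e2]
  linarith

/-- The sum of the `k` smallest eigenvalues. -/
noncomputable def sk (k : ℕ) (X : Matrix (Fin d) (Fin d) ℂ) : ℝ :=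
  sInf {g | ∃ (U : Matrix (Fin d) (Fin d) ℂ) (A : Finset (Fin d)), Uᴴ * U = 1 ∧ A.card = k ∧ g = Gf U A X}

lemma sk_spec {X : Matrix (Fin d) (Fin d) ℂ} {V : Matrix (Fin d) (Fin d) ℂ} (hV : Vᴴ * V = 1)
    {lam : Fin d → ℝ} (hX : Vᴴ * X * V = Matrix.diagonal (fun i => (lam i : ℂ)))
    {A : Finset (Fin d)} {μ : ℝ}
    (hA1 : ∀ i ∈ A, lam i ≤ μ) (hA2 : ∀ i, i ∉ A → μ ≤ lam i) :
    sk A.card X = ∑ i ∈ A, lam i ∧ Gf V A X = ∑ i ∈ A, lam i := by
  have h1 : Gf V A X = ∑ i ∈ A, lam i := by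
    unfold Gf
    rw [hX]
    apply Finset.sum_congr rfl
    intro i _
    simp
  refine ⟨?_, h1⟩
  apply IsLeast.csInf_eq
  constructor
  · exact ⟨V, A, hV, rfl, h1.symm⟩
  · rintro g ⟨U, B, hU, hB, rfl⟩
    exact kyfan hV hU hX hA1 hA2 hB

lemma sk_le {X : Matrix (Fin d) (Fin d) ℂ} (hX : X.IsHermitian) {k : ℕ} (hk1 : 1 ≤ k) (hk : k ≤ d)
    {U : Matrix (Fin d) (Fin d) ℂ} (hU : Uᴴ * U = 1) {B : Finset (Fin d)} (hB : B.card = k) :
    sk k X ≤ Gf U B X := by
  obtain ⟨V, lam, hV, hVX⟩ := spectral hX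
  obtain ⟨A, μ, hA, hA1, hA2⟩ := exists_bottom lam hk1 hk
  have := (sk_spec hV hVX hA1 hA2).1
  rw [hA] at this
  rw [this]
  exact kyfan hV hU hVX hA1 hA2 (by rw [hB, hA])

end spec


/-! ### The generator -/

section gen
variable {d m : ℕ} (L : Fin m → Matrix (Fin d) (Fin d) ℂ)

lemma dissip_add (X Y : Matrix (Fin d) (Fin d) ℂ) : dissip L (X + Y) = dissip L X + dissip L Y := by
  unfold dissip
  rw [← Finset.sum_add_distrib]
  apply Finset.sum_congr rfl
  intro j _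
  simp only [Matrix.mul_add, Matrix.add_mul, smul_add]
  abel

lemma dissip_smul (c : ℂ) (X : Matrix (Fin d) (Fin d) ℂ) : dissip L (c • X) = c • dissip L X := by
  unfold dissip
  rw [Finset.smul_sum]
  apply Finset.sum_congr rfl
  intro j _
  simp only [Matrix.mul_smul, Matrix.smul_mul, smul_sub, smul_add, smul_comm c (1/2 : ℂ)]

lemma lind_add (H X Y : Matrix (Fin d) (Fin d) ℂ) : lind L H (X + Y) = lind L H X + lind L H Y := by
  unfold lind
  rw [dissip_add]
  simp only [Matrix.mul_add, Matrix.add_mul, smul_add, smul_sub]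
  abel

lemma lind_smul (H : Matrix (Fin d) (Fin d) ℂ) (c : ℂ) (X : Matrix (Fin d) (Fin d) ℂ) :
    lind L H (c • X) = c • lind L H X := by
  unfold lind
  rw [dissip_smul]
  simp only [Matrix.mul_smul, Matrix.smul_mul, smul_add, smul_sub, smul_neg, smul_comm c Complex.I]

lemma lind_conj {H : Matrix (Fin d) (Fin d) ℂ} (hH : H.IsHermitian) (X : Matrix (Fin d) (Fin d) ℂ) :
    (lind L H X)ᴴ = lind L H Xᴴ := by
  unfold lind dissip
  rw [Matrix.conjTranspose_add, Matrix.conjTranspose_neg, Matrix.conjTranspose_smul,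
    Matrix.conjTranspose_sub, Matrix.conjTranspose_mul, Matrix.conjTranspose_mul,
    Matrix.conjTranspose_sum, hH.eq]
  congr 1
  · have : star Complex.I = -Complex.I := Complex.conj_I
    rw [this]
    simp only [neg_smul, smul_sub]
    abel
  · apply Finset.sum_congr rfl
    intro j _
    simp only [Matrix.conjTranspose_sub, Matrix.conjTranspose_add, Matrix.conjTranspose_mul,
      Matrix.conjTranspose_smul, Matrix.conjTranspose_conjTranspose]
    have : star (1/2 : ℂ) = 1/2 := by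
      have : (starRingEnd ℂ) (1/2 : ℂ) = 1/2 := by
        rw [map_div₀, map_one, map_ofNat]
      exact this
    rw [this]
    simp only [Matrix.mul_assoc]
    rw [add_comm (Xᴴ * ((L j)ᴴ * L j))]

lemma lind_trace (H X : Matrix (Fin d) (Fin d) ℂ) : (lind L H X).trace = 0 := by
  unfold lind dissip
  rw [Matrix.trace_add, Matrix.trace_neg, Matrix.trace_smul, Matrix.trace_sub,
    Matrix.trace_mul_comm H X, sub_self, smul_zero, neg_zero, zero_add, Matrix.trace_sum]
  apply Finset.sum_eq_zero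
  intro j _
  rw [Matrix.trace_sub, Matrix.trace_smul, Matrix.trace_add, Matrix.trace_mul_comm X,
    Matrix.trace_mul_comm (L j * X), ← Matrix.mul_assoc, smul_eq_mul]
  ring

/-- The transition rate from `k` to `i` in the basis `V`. -/
noncomputable def rate (V : Matrix (Fin d) (Fin d) ℂ) (i k : Fin d) : ℝ :=
  ∑ j, ‖(Vᴴ * L j * V) i k‖^2

lemma rate_nonneg (V : Matrix (Fin d) (Fin d) ℂ) (i k : Fin d) : 0 ≤ rate L V i k :=
  Finset.sum_nonneg (fun _ _ => sq_nonneg _)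

lemma gen_diag (H : Matrix (Fin d) (Fin d) ℂ) {V X : Matrix (Fin d) (Fin d) ℂ} (hV : Vᴴ * V = 1)
    {lam : Fin d → ℝ} (hX : Vᴴ * X * V = Matrix.diagonal (fun i => (lam i : ℂ))) (i : Fin d) :
    ((Vᴴ * lind L H X * V) i i).re = ∑ k, rate L V i k * lam k - (∑ k, rate L V k i) * lam i := by
  have hV' : V * Vᴴ = 1 := mul_eq_one_comm.1 hV
  have ins : ∀ A B : Matrix (Fin d) (Fin d) ℂ, Vᴴ * (A * B) * V = (Vᴴ * A * V) * (Vᴴ * B * V) := by
    intro A B
    calc Vᴴ * (A * B) * V = Vᴴ * A * (V * Vᴴ) * B * V := by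
          rw [hV']; simp only [Matrix.mul_assoc, Matrix.one_mul, Matrix.mul_one]
      _ = _ := by simp only [Matrix.mul_assoc]
  have hct : ∀ A : Matrix (Fin d) (Fin d) ℂ, Vᴴ * Aᴴ * V = (Vᴴ * A * V)ᴴ := by
    intro A
    rw [Matrix.conjTranspose_mul, Matrix.conjTranspose_mul, Matrix.conjTranspose_conjTranspose,
      Matrix.mul_assoc]
  have h1 : (Vᴴ * (Complex.I • (H * X - X * H)) * V) i i = 0 := by
    rw [Matrix.mul_smul, Matrix.smul_mul, Matrix.smul_apply, Matrix.mul_sub, Matrix.sub_mul,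
      ins, ins, hX, Matrix.sub_apply, Matrix.mul_diagonal, Matrix.diagonal_mul, smul_eq_mul]
    ring
  have h2 : ∀ j, ((Vᴴ * (L j * X * (L j)ᴴ - (1/2 : ℂ) • ((L j)ᴴ * L j * X + X * ((L j)ᴴ * L j))) * V) i i).re
      = ∑ k, ‖(Vᴴ * L j * V) i k‖^2 * lam k - (∑ k, ‖(Vᴴ * L j * V) k i‖^2) * lam i := by
    intro j
    set M := Vᴴ * L j * V with hM
    have e1 : (Vᴴ * (L j * X * (L j)ᴴ) * V) i i = ((∑ k, ‖M i k‖^2 * lam k : ℝ) : ℂ) := by
      rw [ins, ins, hX, hct, ← hM, Matrix.mul_apply, Complex.ofReal_sum]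
      apply Finset.sum_congr rfl
      intro k _
      rw [Matrix.mul_diagonal, Matrix.conjTranspose_apply]
      have : M i k * star (M i k) = ((‖M i k‖^2 : ℝ) : ℂ) := by
        push_cast; exact Complex.mul_conj' _
      rw [Complex.ofReal_mul, ← this]; ring
    have e2 : (Vᴴ * ((L j)ᴴ * L j) * V) i i = ((∑ k, ‖M k i‖^2 : ℝ) : ℂ) := by
      rw [ins, hct, ← hM, Matrix.mul_apply, Complex.ofReal_sum]
      apply Finset.sum_congr rfl
      intro k _
      rw [Matrix.conjTranspose_apply]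
      push_cast; exact Complex.conj_mul' _
    have e3 : (Vᴴ * ((L j)ᴴ * L j * X) * V) i i = ((∑ k, ‖M k i‖^2 : ℝ) : ℂ) * lam i := by
      rw [ins, hX, Matrix.mul_diagonal, e2]
    have e4 : (Vᴴ * (X * ((L j)ᴴ * L j)) * V) i i = lam i * ((∑ k, ‖M k i‖^2 : ℝ) : ℂ) := by
      rw [ins, hX, Matrix.diagonal_mul, e2]
    have e5 : (Vᴴ * (L j * X * (L j)ᴴ - (1/2 : ℂ) • ((L j)ᴴ * L j * X + X * ((L j)ᴴ * L j))) * V) i i =
        ((∑ k, ‖M i k‖^2 * lam k - (∑ k, ‖M k i‖^2) * lam i : ℝ) : ℂ) := by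
      rw [Matrix.mul_sub, Matrix.sub_mul, Matrix.mul_smul, Matrix.smul_mul, Matrix.mul_add,
        Matrix.add_mul, Matrix.sub_apply, Matrix.smul_apply, Matrix.add_apply, e1, e3, e4, smul_eq_mul]
      push_cast
      ring
    rw [e5, Complex.ofReal_re]
  have h3 : (Vᴴ * lind L H X * V) i i = -(Vᴴ * (Complex.I • (H * X - X * H)) * V) i i +
      ∑ j, (Vᴴ * (L j * X * (L j)ᴴ - (1/2 : ℂ) • ((L j)ᴴ * L j * X + X * ((L j)ᴴ * L j))) * V) i i := by
    unfold lind dissip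
    rw [Matrix.mul_add, Matrix.add_mul, Matrix.mul_neg, Matrix.neg_mul, Matrix.add_apply,
      Matrix.neg_apply, Matrix.mul_sum, Matrix.sum_mul, Matrix.sum_apply]
  rw [h3, h1, neg_zero, zero_add, Complex.re_sum]
  simp only [h2]
  rw [Finset.sum_sub_distrib]
  congr 1
  · rw [Finset.sum_comm]
    apply Finset.sum_congr rfl
    intro k _
    rw [rate, Finset.sum_mul]
  · rw [← Finset.sum_mul, Finset.sum_comm]
    rfl

/-- The net flow into `A`. -/
lemma gen_sum (H : Matrix (Fin d) (Fin d) ℂ) {V X : Matrix (Fin d) (Fin d) ℂ} (hV : Vᴴ * V = 1)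
    {lam : Fin d → ℝ} (hX : Vᴴ * X * V = Matrix.diagonal (fun i => (lam i : ℂ)))
    (A : Finset (Fin d)) :
    Gf V A (lind L H X) = ∑ i ∈ A, ∑ k ∈ Aᶜ, (rate L V i k * lam k - rate L V k i * lam i) := by
  unfold Gf
  simp only [gen_diag L H hV hX]
  have e : ∀ i, ∑ k, rate L V i k * lam k - (∑ k, rate L V k i) * lam i =
      ∑ k ∈ A, (rate L V i k * lam k - rate L V k i * lam i) +
      ∑ k ∈ Aᶜ, (rate L V i k * lam k - rate L V k i * lam i) := by
    intro i
    rw [Finset.sum_add_sum_compl, Finset.sum_mul, Finset.sum_sub_distrib]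
  simp only [e]
  rw [Finset.sum_add_distrib]
  have h0 : ∑ i ∈ A, ∑ k ∈ A, (rate L V i k * lam k - rate L V k i * lam i) = 0 := by
    simp only [Finset.sum_sub_distrib]
    rw [Finset.sum_comm, sub_self]
  rw [h0, zero_add]

end gen


/-! ### Uniform constants -/

section cpt
variable {d m : ℕ} (L : Fin m → Matrix (Fin d) (Fin d) ℂ)

lemma compact_unitary : IsCompact {U : Matrix (Fin d) (Fin d) ℂ | Uᴴ * U = 1} := by
  have hc : IsCompact (X := Matrix (Fin d) (Fin d) ℂ) (Set.pi Set.univ (fun _ : Fin d =>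
      Set.pi Set.univ (fun _ : Fin d => Metric.closedBall (0:ℂ) 1))) :=
    isCompact_univ_pi (fun _ => isCompact_univ_pi (fun _ => isCompact_closedBall 0 1))
  refine hc.of_isClosed_subset ?_ ?_
  · apply isClosed_eq
    · fun_prop
    · exact continuous_const
  · intro U hU i _ j _
    rw [mem_closedBall_zero_iff]
    exact entry_le_one hU i j

lemma continuous_rate (i k : Fin d) : Continuous (fun V : Matrix (Fin d) (Fin d) ℂ => rate L V i k) := by
  unfold rate
  apply continuous_finsetSum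
  intro j _
  have : Continuous (fun V : Matrix (Fin d) (Fin d) ℂ => (Vᴴ * L j * V) i k) := by
    apply Continuous.matrix_elem
    fun_prop
  exact (this.norm).pow 2

lemma exists_upper : ∃ C : ℝ, 0 < C ∧ ∀ V : Matrix (Fin d) (Fin d) ℂ, Vᴴ * V = 1 →
    ∀ i, ∑ k, rate L V k i ≤ C ∧ ∑ k, rate L V i k ≤ C := by
  have hcont : Continuous (fun V : Matrix (Fin d) (Fin d) ℂ => ∑ i, ∑ k, rate L V i k) :=
    continuous_finsetSum _ (fun i _ => continuous_finsetSum _ (fun k _ => continuous_rate L i k))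
  obtain ⟨C, hC⟩ := (compact_unitary (d := d)).bddAbove_image hcont.continuousOn
  refine ⟨max C 1, by positivity, fun V hV i => ?_⟩
  have h1 : ∑ i, ∑ k, rate L V i k ≤ C := hC ⟨V, hV, rfl⟩
  constructor
  · calc ∑ k, rate L V k i ≤ ∑ k, ∑ i, rate L V k i := by
          apply Finset.sum_le_sum
          intro k _
          exact Finset.single_le_sum (f := fun i => rate L V k i) (fun _ _ => rate_nonneg L V _ _) (Finset.mem_univ i)
      _ ≤ C := h1
      _ ≤ max C 1 := le_max_left _ _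
  · calc ∑ k, rate L V i k ≤ ∑ i, ∑ k, rate L V i k :=
          Finset.single_le_sum (f := fun i => ∑ k, rate L V i k)
            (fun _ _ => Finset.sum_nonneg (fun _ _ => rate_nonneg L V _ _)) (Finset.mem_univ i)
      _ ≤ C := h1
      _ ≤ max C 1 := le_max_left _ _

lemma flow_pos (hL : Algebra.adjoin ℂ (Set.range L) = ⊤) {V : Matrix (Fin d) (Fin d) ℂ}
    (hV : Vᴴ * V = 1) {A : Finset (Fin d)} (hA : A.Nonempty) (hA' : Aᶜ.Nonempty) :
    0 < ∑ i ∈ A, ∑ k ∈ Aᶜ, rate L V i k := by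
  have hV' : V * Vᴴ = 1 := mul_eq_one_comm.1 hV
  have h0 : 0 ≤ ∑ i ∈ A, ∑ k ∈ Aᶜ, rate L V i k :=
    Finset.sum_nonneg (fun _ _ => Finset.sum_nonneg (fun _ _ => rate_nonneg L V _ _))
  rcases h0.lt_or_eq with h | h
  · exact h
  · exfalso
    have hz : ∀ j, ∀ i ∈ A, ∀ k ∈ Aᶜ, (Vᴴ * L j * V) i k = 0 := by
      intro j i hi k hk
      have h1 := (Finset.sum_eq_zero_iff_of_nonneg (fun i _ =>
        Finset.sum_nonneg (fun k _ => rate_nonneg L V i k))).1 h.symm i hi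
      have h2 := (Finset.sum_eq_zero_iff_of_nonneg (fun k _ => rate_nonneg L V i k)).1 h1 k hk
      have h3 := (Finset.sum_eq_zero_iff_of_nonneg (fun j _ => sq_nonneg _)).1 h2 j (Finset.mem_univ j)
      have h4 : ‖(Vᴴ * L j * V) i k‖ = 0 := by
        exact pow_eq_zero_iff (two_ne_zero) |>.1 h3
      exact norm_eq_zero.1 h4
    have hall : ∀ X : Matrix (Fin d) (Fin d) ℂ, ∀ i ∈ A, ∀ k ∈ Aᶜ, (Vᴴ * X * V) i k = 0 := by
      intro X
      have hX : X ∈ Algebra.adjoin ℂ (Set.range L) := by rw [hL]; trivial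
      induction hX using Algebra.adjoin_induction with
      | mem x hx =>
        obtain ⟨j, rfl⟩ := hx
        exact hz j
      | algebraMap r =>
        intro i hi k hk
        have : i ≠ k := fun h => by
          rw [h] at hi; exact (Finset.mem_compl.1 hk) hi
        rw [Algebra.algebraMap_eq_smul_one, Matrix.mul_smul, Matrix.smul_mul, Matrix.mul_one, hV,
          Matrix.smul_apply, Matrix.one_apply_ne this, smul_zero]
      | add x y _ _ hx hy =>
        intro i hi k hk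
        rw [Matrix.mul_add, Matrix.add_mul, Matrix.add_apply, hx i hi k hk, hy i hi k hk, add_zero]
      | mul x y _ _ hx hy =>
        intro i hi k hk
        have e : Vᴴ * (x * y) * V = (Vᴴ * x * V) * (Vᴴ * y * V) := by
          calc Vᴴ * (x * y) * V = Vᴴ * x * (V * Vᴴ) * y * V := by
                rw [hV']; simp only [Matrix.mul_assoc, Matrix.one_mul]
            _ = _ := by simp only [Matrix.mul_assoc]
        rw [e, Matrix.mul_apply]
        apply Finset.sum_eq_zero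
        intro l _
        by_cases hl : l ∈ A
        · rw [hy l hl k hk, mul_zero]
        · rw [hx i hi l (Finset.mem_compl.2 hl), zero_mul]
    obtain ⟨i, hi⟩ := hA
    obtain ⟨k, hk⟩ := hA'
    have := hall (V * Matrix.single i k 1 * Vᴴ) i hi k hk
    have e : Vᴴ * (V * Matrix.single i k (1:ℂ) * Vᴴ) * V = Matrix.single i k 1 := by
      calc Vᴴ * (V * Matrix.single i k (1:ℂ) * Vᴴ) * V = (Vᴴ * V) * Matrix.single i k 1 * (Vᴴ * V) := by
            simp only [Matrix.mul_assoc]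
        _ = _ := by rw [hV]; simp
    rw [e, Matrix.single_apply_same] at this
    exact one_ne_zero this

lemma exists_lower (hL : Algebra.adjoin ℂ (Set.range L) = ⊤) : ∃ c : ℝ, 0 < c ∧
    ∀ V : Matrix (Fin d) (Fin d) ℂ, Vᴴ * V = 1 → ∀ A : Finset (Fin d), A.Nonempty → Aᶜ.Nonempty →
    c ≤ ∑ i ∈ A, ∑ k ∈ Aᶜ, rate L V i k := by
  have h1 : ∀ A : Finset (Fin d), ∃ c : ℝ, 0 < c ∧ (A.Nonempty → Aᶜ.Nonempty →
      ∀ V : Matrix (Fin d) (Fin d) ℂ, Vᴴ * V = 1 → c ≤ ∑ i ∈ A, ∑ k ∈ Aᶜ, rate L V i k) := by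
    intro A
    by_cases hA : A.Nonempty ∧ Aᶜ.Nonempty
    · have hcont : Continuous (fun V : Matrix (Fin d) (Fin d) ℂ => ∑ i ∈ A, ∑ k ∈ Aᶜ, rate L V i k) :=
        continuous_finsetSum _ (fun i _ => continuous_finsetSum _ (fun k _ => continuous_rate L i k))
      have hne : ({U : Matrix (Fin d) (Fin d) ℂ | Uᴴ * U = 1}).Nonempty := ⟨1, by simp⟩
      obtain ⟨V0, hV0, hmin⟩ := (compact_unitary (d := d)).exists_isMinOn hne hcont.continuousOn
      refine ⟨_, flow_pos L hL hV0 hA.1 hA.2, fun _ _ V hV => ?_⟩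
      exact hmin hV
    · exact ⟨1, one_pos, fun h2 h3 => absurd ⟨h2, h3⟩ hA⟩
  choose c hc0 hc using h1
  refine ⟨Finset.univ.inf' Finset.univ_nonempty c, ?_, fun V hV A hA hA' => ?_⟩
  · rw [Finset.lt_inf'_iff]
    exact fun A _ => hc0 A
  · exact le_trans (Finset.inf'_le c (Finset.mem_univ A)) (hc A hA hA' V hV)

end cpt


end Pool.Agent.H994.Driven
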