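import Mathlib
import Pool.Agent.H994.Driven.Spec

namespace Pool.Agent.H994.Driven

open Matrix MeasureTheory
open scoped ComplexOrder

/-! ### Analysis -/

section ana

lemma ode_lemma {f : ℝ → ℝ} {a b α c0 : ℝ} (hab : a ≤ b)
    (hf : AbsolutelyContinuousOnInterval f a b)
    (h : ∀ᵐ t, t ∈ Set.Ioo a b → DifferentiableAt ℝ f t → α * (f t + c0) ≤ deriv f t) :
    Real.exp (α * (b - a)) * (f a + c0) ≤ f b + c0 := by
  set e : ℝ → ℝ := fun t => Real.exp (-(α * t)) with he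
  set g : ℝ → ℝ := fun t => f t + c0 with hg
  have hed : ∀ t, HasDerivAt e (-(α * e t)) t := by
    intro t
    have h1 : HasDerivAt (fun t : ℝ => -(α * t)) (-α) t := by
      have h3 : HasDerivAt (fun t : ℝ => -(α * t)) (-(α * 1)) t := ((hasDerivAt_id t).const_mul α).neg
      rw [mul_one] at h3
      exact h3
    have h2 := h1.exp
    convert h2 using 1
    simp only [he]; ring
  have hec : AbsolutelyContinuousOnInterval e a b := by
    apply ContDiffOn.absolutelyContinuousOnInterval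
    apply ContDiff.contDiffOn
    simp only [he]
    fun_prop
  have hgc : AbsolutelyContinuousOnInterval g a b := by
    apply AbsolutelyContinuousOnInterval.add hf
    apply LipschitzOnWith.absolutelyContinuousOnInterval (K := 0)
    exact (LipschitzWith.const c0).lipschitzOnWith
  have hint := AbsolutelyContinuousOnInterval.integral_deriv_mul_eq_sub hec hgc
  have hnn : 0 ≤ ∫ x in a..b, deriv e x * g x + e x * deriv g x := by
    apply intervalIntegral.integral_nonneg_of_ae_restrict hab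
    rw [Filter.EventuallyLE, ae_restrict_iff' measurableSet_Icc]
    have hd := hf.ae_differentiableAt
    have h1 : ∀ᵐ x : ℝ, x ≠ a := by simp [ae_iff, measure_singleton]
    have h2 : ∀ᵐ x : ℝ, x ≠ b := by simp [ae_iff, measure_singleton]
    filter_upwards [h, hd, h1, h2] with x hx hdx hxa hxb hmem
    have hIoo : x ∈ Set.Ioo a b := ⟨lt_of_le_of_ne hmem.1 (Ne.symm hxa), lt_of_le_of_ne hmem.2 hxb⟩
    have hdx' := hdx (by rw [Set.uIcc_of_le hab]; exact hmem)
    have h3 := hx hIoo hdx'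
    have h4 : deriv g x = deriv f x := by
      simp only [hg]
      exact deriv_add_const c0
    rw [(hed x).deriv, h4]
    have h5 : 0 < e x := Real.exp_pos _
    simp only [Pi.zero_apply, hg]
    nlinarith
  rw [hint] at hnn
  simp only [he, hg] at hnn
  have h6 : Real.exp (α * (b - a)) = Real.exp (-(α * a)) * Real.exp (α * b) := by
    rw [← Real.exp_add]; congr 1; ring
  have h7 : Real.exp (-(α * b)) * Real.exp (α * b) = 1 := by
    rw [← Real.exp_add]; simp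
  have h8 : 0 < Real.exp (α * b) := Real.exp_pos _
  rw [h6]
  have h9 := mul_le_mul_of_nonneg_right (sub_nonneg.1 hnn) h8.le
  calc Real.exp (-(α * a)) * Real.exp (α * b) * (f a + c0)
      = Real.exp (-(α * a)) * (f a + c0) * Real.exp (α * b) := by ring
    _ ≤ Real.exp (-(α * b)) * (f b + c0) * Real.exp (α * b) := h9
    _ = (Real.exp (-(α * b)) * Real.exp (α * b)) * (f b + c0) := by ring
    _ = f b + c0 := by rw [h7, one_mul]

/-- A function with `f' ≥ -K |f|` which starts nonnegative stays nonnegative. -/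
lemma nonneg_lemma {f : ℝ → ℝ} {a b K : ℝ} (hab : a ≤ b)
    (hf : AbsolutelyContinuousOnInterval f a b) (ha : 0 ≤ f a)
    (h : ∀ᵐ t, t ∈ Set.Ioo a b → DifferentiableAt ℝ f t → -(K * |f t|) ≤ deriv f t) :
    0 ≤ f b := by
  by_contra hb
  push Not at hb
  have hcont : ContinuousOn f (Set.Icc a b) := by
    have := hf.continuousOn
    rwa [Set.uIcc_of_le hab] at this
  have hcpt : IsCompact {t ∈ Set.Icc a b | 0 ≤ f t} := by
    have h1 : {t ∈ Set.Icc a b | 0 ≤ f t} = Set.Icc a b ∩ f ⁻¹' Set.Ici 0 := by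
      ext t; simp
    rw [h1]
    exact isCompact_Icc.of_isClosed_subset
      (hcont.preimage_isClosed_of_isClosed isClosed_Icc isClosed_Ici) Set.inter_subset_left
  obtain ⟨t0, ht0, hmax⟩ := hcpt.exists_isGreatest ⟨a, ⟨le_rfl, hab⟩, ha⟩
  have ht0b : t0 ≤ b := ht0.1.2
  have hneg : ∀ t, t0 < t → t ≤ b → f t < 0 := by
    intro t h1 h2
    by_contra h3
    push Not at h3
    have := hmax ⟨⟨le_trans ht0.1.1 h1.le, h2⟩, h3⟩
    linarith
  have hsub : AbsolutelyContinuousOnInterval f t0 b := by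
    apply hf.mono
    rw [Set.uIcc_of_le hab, Set.uIcc_of_le ht0b]
    exact Set.Icc_subset_Icc_left ht0.1.1
  have := ode_lemma (f := f) (a := t0) (b := b) (α := K) (c0 := 0) ht0b hsub (by
    filter_upwards [h] with t ht hmem hd
    have h1 := ht ⟨lt_of_le_of_lt ht0.1.1 hmem.1, hmem.2⟩ hd
    have h2 := hneg t hmem.1 hmem.2.le
    rw [abs_of_neg h2] at h1
    rw [add_zero]
    linarith)
  rw [add_zero, add_zero] at this
  have h3 : 0 ≤ Real.exp (K * (b - t0)) * f t0 := mul_nonneg (Real.exp_pos _).le ht0.2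
  linarith

end ana


/-! ### Trajectories -/

section traj
variable {d m : ℕ} {L : Fin m → Matrix (Fin d) (Fin d) ℂ} {H : ℝ → Matrix (Fin d) (Fin d) ℂ}

/-- Trajectories starting at time `s`. -/
def IsTraj (L : Fin m → Matrix (Fin d) (Fin d) ℂ) (H : ℝ → Matrix (Fin d) (Fin d) ℂ) (s : ℝ)
    (ρ : ℝ → Matrix (Fin d) (Fin d) ℂ) : Prop :=
  ∀ t, s ≤ t → ∀ i j, IntervalIntegrable (fun r => lind L (H r) (ρ r) i j) volume s t ∧
    ρ t i j = ρ s i j + ∫ r in s..t, lind L (H r) (ρ r) i j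

lemma traj_restrict {s s' : ℝ} (hs : s ≤ s') {ρ : ℝ → Matrix (Fin d) (Fin d) ℂ}
    (h : IsTraj L H s ρ) : IsTraj L H s' ρ := by
  intro t ht i j
  obtain ⟨h1, h2⟩ := h t (le_trans hs ht) i j
  obtain ⟨h3, h4⟩ := h s' hs i j
  have h5 : IntervalIntegrable (fun r => lind L (H r) (ρ r) i j) volume s' t := h3.symm.trans h1
  refine ⟨h5, ?_⟩
  rw [h2, h4, add_assoc, intervalIntegral.integral_add_adjacent_intervals h3 h5]

lemma traj_cont {s : ℝ} {ρ : ℝ → Matrix (Fin d) (Fin d) ℂ} (h : IsTraj L H s ρ) {T : ℝ}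
    (hT : s ≤ T) (i j : Fin d) : ContinuousOn (fun t => ρ t i j) (Set.Icc s T) := by
  obtain ⟨h1, -⟩ := h T hT i j
  have h2 := intervalIntegral.continuousOn_primitive_interval' h1 Set.left_mem_uIcc
  rw [Set.uIcc_of_le hT] at h2
  have h3 : ContinuousOn (fun t => ρ s i j + ∫ r in s..t, lind L (H r) (ρ r) i j) (Set.Icc s T) :=
    continuousOn_const.add h2
  exact h3.congr (fun t ht => (h t ht.1 i j).2)

lemma traj_bdd {s : ℝ} {ρ : ℝ → Matrix (Fin d) (Fin d) ℂ} (h : IsTraj L H s ρ) {T : ℝ}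
    (hT : s ≤ T) : ∃ B : ℝ, 0 ≤ B ∧ ∀ t ∈ Set.Icc s T, ∀ i j, ‖ρ t i j‖ ≤ B := by
  have h1 : ∀ i j, ∃ B, ∀ t ∈ Set.Icc s T, ‖ρ t i j‖ ≤ B := fun i j =>
    isCompact_Icc.exists_bound_of_continuousOn (traj_cont h hT i j)
  choose B hB using h1
  refine ⟨∑ i, ∑ j, |B i j|, Finset.sum_nonneg (fun _ _ => Finset.sum_nonneg (fun _ _ => abs_nonneg _)),
    fun t ht i j => ?_⟩
  calc ‖ρ t i j‖ ≤ B i j := hB i j t ht
    _ ≤ |B i j| := le_abs_self _
    _ ≤ ∑ j, |B i j| := Finset.single_le_sum (f := fun j => |B i j|) (fun _ _ => abs_nonneg _) (Finset.mem_univ j)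
    _ ≤ ∑ i, ∑ j, |B i j| := Finset.single_le_sum (f := fun i => ∑ j, |B i j|)
        (fun _ _ => Finset.sum_nonneg (fun _ _ => abs_nonneg _)) (Finset.mem_univ i)

lemma mul_entry_bound {A X : Matrix (Fin d) (Fin d) ℂ} {a b : ℝ} (hb : 0 ≤ b)
    (hA : ∀ i j, ‖A i j‖ ≤ a) (hX : ∀ i j, ‖X i j‖ ≤ b) (i j : Fin d) :
    ‖(A * X) i j‖ ≤ d * (a * b) := by
  rw [Matrix.mul_apply]
  calc ‖∑ k, A i k * X k j‖ ≤ ∑ k, ‖A i k * X k j‖ := norm_sum_le _ _
    _ ≤ ∑ _k : Fin d, a * b := by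
        apply Finset.sum_le_sum
        intro k _
        rw [norm_mul]
        exact mul_le_mul (hA i k) (hX k j) (norm_nonneg _) (le_trans (norm_nonneg _) (hA i k))
    _ = d * (a * b) := by simp

lemma dissip_expand (L : Fin m → Matrix (Fin d) (Fin d) ℂ) (X : Matrix (Fin d) (Fin d) ℂ)
    (i j : Fin d) : dissip L X i j = ∑ k, ∑ l, X k l * dissip L (Matrix.single k l 1) i j := by
  have hsum : ∀ (s : Finset (Fin d)) (f : Fin d → Matrix (Fin d) (Fin d) ℂ),
      dissip L (∑ k ∈ s, f k) = ∑ k ∈ s, dissip L (f k) := by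
    intro s f
    induction s using Finset.induction_on with
    | empty =>
      have := dissip_smul L 0 0
      simpa using this
    | insert a s ha ih => rw [Finset.sum_insert ha, dissip_add, ih, Finset.sum_insert ha]
  conv_lhs => rw [Matrix.matrix_eq_sum_single X]
  rw [hsum, Matrix.sum_apply]
  apply Finset.sum_congr rfl; intro k _
  rw [hsum, Matrix.sum_apply]
  apply Finset.sum_congr rfl; intro l _
  have : Matrix.single k l (X k l) = X k l • (Matrix.single k l 1 : Matrix (Fin d) (Fin d) ℂ) := by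
    rw [Matrix.smul_single, smul_eq_mul, mul_one]
  rw [this, dissip_smul, Matrix.smul_apply, smul_eq_mul]

lemma dissip_bound (L : Fin m → Matrix (Fin d) (Fin d) ℂ) : ∃ D : ℝ, 0 ≤ D ∧
    ∀ (b : ℝ) (X : Matrix (Fin d) (Fin d) ℂ), (∀ i j, ‖X i j‖ ≤ b) →
      ∀ i j, ‖dissip L X i j‖ ≤ D * b := by
  have h1 : ∀ i j : Fin d, 0 ≤ ∑ k, ∑ l, ‖dissip L (Matrix.single k l 1) i j‖ := fun i j =>
    Finset.sum_nonneg (fun _ _ => Finset.sum_nonneg (fun _ _ => norm_nonneg _))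
  refine ⟨∑ i, ∑ j, ∑ k, ∑ l, ‖dissip L (Matrix.single k l 1) i j‖,
    Finset.sum_nonneg (fun i _ => Finset.sum_nonneg (fun j _ => h1 i j)), fun b X hX i j => ?_⟩
  have hb : 0 ≤ b := le_trans (norm_nonneg _) (hX i j)
  rw [dissip_expand]
  calc ‖∑ k, ∑ l, X k l * dissip L (Matrix.single k l 1) i j‖
      ≤ ∑ k, ∑ l, ‖X k l * dissip L (Matrix.single k l 1) i j‖ :=
        (norm_sum_le _ _).trans (Finset.sum_le_sum (fun k _ => norm_sum_le _ _))
    _ ≤ ∑ k, ∑ l, ‖dissip L (Matrix.single k l 1) i j‖ * b := by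
        apply Finset.sum_le_sum; intro k _
        apply Finset.sum_le_sum; intro l _
        rw [norm_mul, mul_comm]
        exact mul_le_mul_of_nonneg_left (hX k l) (norm_nonneg _)
    _ = (∑ k, ∑ l, ‖dissip L (Matrix.single k l 1) i j‖) * b := by
        simp only [Finset.sum_mul]
    _ ≤ _ := by
        apply mul_le_mul_of_nonneg_right _ hb
        calc ∑ k, ∑ l, ‖dissip L (Matrix.single k l 1) i j‖
            ≤ ∑ j, ∑ k, ∑ l, ‖dissip L (Matrix.single k l 1) i j‖ :=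
              Finset.single_le_sum (f := fun j => ∑ k, ∑ l, ‖dissip L (Matrix.single k l 1) i j‖)
                (fun j _ => h1 i j) (Finset.mem_univ j)
          _ ≤ _ := Finset.single_le_sum (f := fun i => ∑ j, ∑ k, ∑ l, ‖dissip L (Matrix.single k l 1) i j‖)
                (fun i _ => Finset.sum_nonneg (fun j _ => h1 i j)) (Finset.mem_univ i)

/-- A crude bound for the generator. -/
lemma lind_bound (L : Fin m → Matrix (Fin d) (Fin d) ℂ) (a : ℝ) : ∃ M : ℝ, 0 ≤ M ∧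
    ∀ (b : ℝ) (A X : Matrix (Fin d) (Fin d) ℂ), (∀ i j, ‖A i j‖ ≤ a) → (∀ i j, ‖X i j‖ ≤ b) →
      ∀ i j, ‖lind L A X i j‖ ≤ M * b := by
  obtain ⟨D, hD0, hD⟩ := dissip_bound L
  refine ⟨2 * (d * |a|) + D, by positivity, fun b A X hA hX i j => ?_⟩
  have hb : 0 ≤ b := le_trans (norm_nonneg _) (hX i j)
  have hA' : ∀ i j, ‖A i j‖ ≤ |a| := fun i j => le_trans (hA i j) (le_abs_self a)
  have h1 : ‖(A * X) i j‖ ≤ d * (|a| * b) := mul_entry_bound hb hA' hX i j
  have h2 : ‖(X * A) i j‖ ≤ d * (b * |a|) := mul_entry_bound (abs_nonneg a) hX hA' i j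
  have h3 : ‖dissip L X i j‖ ≤ D * b := hD b X hX i j
  unfold lind
  rw [Matrix.add_apply, Matrix.neg_apply, Matrix.smul_apply, Matrix.sub_apply]
  calc ‖-(Complex.I • ((A * X) i j - (X * A) i j)) + dissip L X i j‖
      ≤ ‖-(Complex.I • ((A * X) i j - (X * A) i j))‖ + ‖dissip L X i j‖ := norm_add_le _ _
    _ ≤ (‖(A * X) i j‖ + ‖(X * A) i j‖) + ‖dissip L X i j‖ := by
        gcongr
        rw [norm_neg, norm_smul, Complex.norm_I, one_mul]
        exact norm_sub_le _ _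
    _ ≤ (d * (|a| * b) + d * (b * |a|)) + D * b := by gcongr
    _ = (2 * (d * |a|) + D) * b := by ring

/-- Trajectories are Lipschitz on bounded intervals. -/
lemma traj_lip (hH : IsDrive H) {s : ℝ} (hs : 0 ≤ s) {ρ : ℝ → Matrix (Fin d) (Fin d) ℂ}
    (h : IsTraj L H s ρ) {T : ℝ} (hT : s ≤ T) : ∃ M : ℝ, 0 ≤ M ∧ ∀ r ∈ Set.Icc s T, ∀ t ∈ Set.Icc s T,
    ∀ i j, ‖ρ t i j - ρ r i j‖ ≤ M * |t - r| := by
  obtain ⟨B, hB0, hB⟩ := traj_bdd h hT
  obtain ⟨C, hC⟩ := hH.2.2 T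
  obtain ⟨M, hM0, hM⟩ := lind_bound L C
  refine ⟨M * B, by positivity, fun r hr t ht i j => ?_⟩
  obtain ⟨h1, h2⟩ := h t ht.1 i j
  obtain ⟨h3, h4⟩ := h r hr.1 i j
  have e : ρ t i j - ρ r i j = ∫ x in r..t, lind L (H x) (ρ x) i j := by
    rw [h2, h4, ← intervalIntegral.integral_interval_sub_left h1 h3]; ring
  rw [e]
  apply intervalIntegral.norm_integral_le_of_norm_le_const
  intro x hx
  have hx' : x ∈ Set.Icc s T := by
    have := Set.uIoc_subset_uIcc hx
    rw [Set.mem_uIcc] at this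
    rcases this with h' | h'
    · exact ⟨le_trans hr.1 h'.1, le_trans h'.2 ht.2⟩
    · exact ⟨le_trans ht.1 h'.1, le_trans h'.2 hr.2⟩
  exact hM B _ _ (hC x (le_trans hs hx'.1) hx'.2) (hB x hx') i j

/-- Almost everywhere differentiability. -/
lemma traj_deriv {s : ℝ} {ρ : ℝ → Matrix (Fin d) (Fin d) ℂ} (h : IsTraj L H s ρ) {T : ℝ}
    (hT : s ≤ T) : ∀ᵐ t, t ∈ Set.Ioo s T → ∀ i j,
      HasDerivAt (fun r => ρ r i j) (lind L (H t) (ρ t) i j) t := by
  have h1 : ∀ i j, ∀ᵐ t, t ∈ Set.uIcc s T → ∀ c ∈ Set.uIcc s T,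
      HasDerivAt (fun x => ∫ r in c..x, lind L (H r) (ρ r) i j) (lind L (H t) (ρ t) i j) t :=
    fun i j => (h T hT i j).1.ae_hasDerivAt_integral
  have h2 : ∀ᵐ t, ∀ i j, t ∈ Set.uIcc s T → ∀ c ∈ Set.uIcc s T,
      HasDerivAt (fun x => ∫ r in c..x, lind L (H r) (ρ r) i j) (lind L (H t) (ρ t) i j) t := by
    rw [ae_all_iff]; intro i
    rw [ae_all_iff]; intro j
    exact h1 i j
  filter_upwards [h2] with t ht hmem i j
  rw [Set.uIcc_of_le hT] at ht
  have h3 := (ht i j ⟨hmem.1.le, hmem.2.le⟩ s ⟨le_rfl, hT⟩).const_add (ρ s i j)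
  apply h3.congr_of_eventuallyEq
  filter_upwards [Ioi_mem_nhds hmem.1] with r hr
  exact (h r (le_of_lt hr) i j).2

/-- Linear combinations of trajectories. -/
lemma traj_sub {s : ℝ} {ρ σ : ℝ → Matrix (Fin d) (Fin d) ℂ} (h : IsTraj L H s ρ)
    (h' : IsTraj L H s σ) : IsTraj L H s (fun t => ρ t - σ t) := by
  intro t ht i j
  obtain ⟨h1, h2⟩ := h t ht i j
  obtain ⟨h3, h4⟩ := h' t ht i j
  have e : ∀ r, lind L (H r) (ρ r - σ r) i j = lind L (H r) (ρ r) i j - lind L (H r) (σ r) i j := by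
    intro r
    have : ρ r - σ r = ρ r + (-1 : ℂ) • σ r := by simp [sub_eq_add_neg]
    rw [this, lind_add, lind_smul, Matrix.add_apply, Matrix.smul_apply]
    simp [sub_eq_add_neg]
  simp only [e]
  refine ⟨h1.sub h3, ?_⟩
  rw [intervalIntegral.integral_sub h1 h3, Matrix.sub_apply, Matrix.sub_apply, h2, h4]
  ring

lemma traj_conj (hH : IsDrive H) {s : ℝ} (hs : 0 ≤ s) {ρ : ℝ → Matrix (Fin d) (Fin d) ℂ}
    (h : IsTraj L H s ρ) : IsTraj L H s (fun t => (ρ t)ᴴ) := by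
  intro t ht i j
  obtain ⟨h1, h2⟩ := h t ht j i
  have e : ∀ r ∈ Set.uIoc s t, lind L (H r) (ρ r)ᴴ i j = (starRingEnd ℂ) (lind L (H r) (ρ r) j i) := by
    intro r hr
    rw [Set.uIoc_of_le ht] at hr
    rw [← lind_conj L (hH.1 r (le_trans hs hr.1.le)), Matrix.conjTranspose_apply]
    rfl
  have h3 : IntervalIntegrable (fun r => (starRingEnd ℂ) (lind L (H r) (ρ r) j i)) volume s t := by
    exact ⟨(Complex.conjCLE : ℂ →L[ℝ] ℂ).integrable_comp h1.1, (Complex.conjCLE : ℂ →L[ℝ] ℂ).integrable_comp h1.2⟩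
  refine ⟨h3.congr (fun r hr => (e r hr).symm), ?_⟩
  rw [intervalIntegral.integral_congr_ae (g := fun r => (starRingEnd ℂ) (lind L (H r) (ρ r) j i))
    (Filter.Eventually.of_forall e)]
  change (ρ t)ᴴ i j = (ρ s)ᴴ i j + _
  rw [Matrix.conjTranspose_apply, Matrix.conjTranspose_apply, h2, star_add]
  congr 1
  exact ((Complex.conjCLE : ℂ →L[ℝ] ℂ).intervalIntegral_comp_comm h1).symm

end traj


end Pool.Agent.H994.Driven
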