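import Mathlib
import Pool.Agent.H994.Driven.Ana

namespace Pool.Agent.H994.Driven

open Matrix MeasureTheory
open scoped ComplexOrder

section evol
variable {d m : ℕ} {L : Fin m → Matrix (Fin d) (Fin d) ℂ} {H : ℝ → Matrix (Fin d) (Fin d) ℂ}

/-- A real function which is Lipschitz on `[a, b]` is absolutely continuous there. -/
lemma ac_of_lip {f : ℝ → ℝ} {a b M : ℝ} (hab : a ≤ b) (hM : 0 ≤ M)
    (h : ∀ r ∈ Set.Icc a b, ∀ t ∈ Set.Icc a b, |f t - f r| ≤ M * |t - r|) :
    AbsolutelyContinuousOnInterval f a b := by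
  apply LipschitzOnWith.absolutelyContinuousOnInterval (K := ⟨M, hM⟩)
  rw [Set.uIcc_of_le hab]
  apply LipschitzOnWith.of_dist_le_mul
  intro x hx y hy
  rw [Real.dist_eq, Real.dist_eq]
  exact h y hy x hx

/-- Uniqueness. -/
lemma traj_zero (hH : IsDrive H) {s : ℝ} (hs : 0 ≤ s) {ρ : ℝ → Matrix (Fin d) (Fin d) ℂ}
    (h : IsTraj L H s ρ) (h0 : ρ s = 0) {T : ℝ} (hT : s ≤ T) : ρ T = 0 := by
  obtain ⟨B, hB0, hB⟩ := traj_bdd h hT
  obtain ⟨M1, hM10, hM1⟩ := traj_lip hH hs h hT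
  obtain ⟨C, hC⟩ := hH.2.2 T
  obtain ⟨M, hM0, hM⟩ := lind_bound L C
  set f : ℝ → ℝ := fun t => ∑ i, ∑ j, ‖ρ t i j‖^2 with hf
  have hf0 : ∀ t, 0 ≤ f t := fun t => Finset.sum_nonneg (fun _ _ => Finset.sum_nonneg (fun _ _ => sq_nonneg _))
  have hle : ∀ t i j, ‖ρ t i j‖ ≤ √(f t) := by
    intro t i j
    apply Real.le_sqrt_of_sq_le
    calc ‖ρ t i j‖^2 ≤ ∑ j, ‖ρ t i j‖^2 :=
          Finset.single_le_sum (f := fun j => ‖ρ t i j‖^2) (fun _ _ => sq_nonneg _) (Finset.mem_univ j)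
      _ ≤ _ := Finset.single_le_sum (f := fun i => ∑ j, ‖ρ t i j‖^2)
          (fun _ _ => Finset.sum_nonneg (fun _ _ => sq_nonneg _)) (Finset.mem_univ i)
  have hac : AbsolutelyContinuousOnInterval f s T := by
    apply ac_of_lip (M := d * (d * (2 * B * M1))) hT (by positivity)
    intro r hr t ht
    simp only [hf]
    rw [← Finset.sum_sub_distrib]
    simp only [← Finset.sum_sub_distrib]
    calc |∑ i, ∑ j, (‖ρ t i j‖^2 - ‖ρ r i j‖^2)| ≤ ∑ i, ∑ j, |‖ρ t i j‖^2 - ‖ρ r i j‖^2| :=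
          (Finset.abs_sum_le_sum_abs _ _).trans (Finset.sum_le_sum (fun _ _ => Finset.abs_sum_le_sum_abs _ _))
      _ ≤ ∑ _i : Fin d, ∑ _j : Fin d, 2 * B * M1 * |t - r| := by
          apply Finset.sum_le_sum; intro i _
          apply Finset.sum_le_sum; intro j _
          have e : ‖ρ t i j‖^2 - ‖ρ r i j‖^2 = (‖ρ t i j‖ + ‖ρ r i j‖) * (‖ρ t i j‖ - ‖ρ r i j‖) := by ring
          rw [e, abs_mul, abs_of_nonneg (by positivity : 0 ≤ ‖ρ t i j‖ + ‖ρ r i j‖)]
          have h1 : |‖ρ t i j‖ - ‖ρ r i j‖| ≤ M1 * |t - r| :=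
            (abs_norm_sub_norm_le _ _).trans (hM1 r hr t ht i j)
          have h2 : ‖ρ t i j‖ + ‖ρ r i j‖ ≤ 2 * B := by linarith [hB t ht i j, hB r hr i j]
          calc (‖ρ t i j‖ + ‖ρ r i j‖) * |‖ρ t i j‖ - ‖ρ r i j‖| ≤ (2 * B) * (M1 * |t - r|) :=
                mul_le_mul h2 h1 (abs_nonneg _) (by positivity)
            _ = 2 * B * M1 * |t - r| := by ring
      _ = d * (d * (2 * B * M1)) * |t - r| := by simp; ring
  have hacn : AbsolutelyContinuousOnInterval (fun t => - f t) s T := by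
    exact hac.neg
  have key := ode_lemma (f := fun t => - f t) (a := s) (b := T) (α := d * (d * (2 * M))) (c0 := 0) hT hacn (by
    filter_upwards [traj_deriv h hT] with t ht hmem _
    have htI : t ∈ Set.Icc s T := ⟨hmem.1.le, hmem.2.le⟩
    have hd1 : ∀ i j, HasDerivAt (fun r => ‖ρ r i j‖^2)
        (2 * ((ρ t i j).re * (lind L (H t) (ρ t) i j).re + (ρ t i j).im * (lind L (H t) (ρ t) i j).im)) t := by
      intro i j
      have e : (fun r => ‖ρ r i j‖^2) = fun r => (ρ r i j).re * (ρ r i j).re + (ρ r i j).im * (ρ r i j).im := by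
        ext r
        rw [← Complex.normSq_eq_norm_sq, Complex.normSq_apply]
      rw [e]
      have hre : HasDerivAt (fun r => (ρ r i j).re) (lind L (H t) (ρ t) i j).re t :=
        (Complex.reCLM.hasFDerivAt.comp_hasDerivAt t (ht hmem i j))
      have him : HasDerivAt (fun r => (ρ r i j).im) (lind L (H t) (ρ t) i j).im t :=
        (Complex.imCLM.hasFDerivAt.comp_hasDerivAt t (ht hmem i j))
      exact ((hre.mul hre).add (him.mul him)).congr_deriv (by ring)
    have hd2 : HasDerivAt f (∑ i, ∑ j, 2 * ((ρ t i j).re * (lind L (H t) (ρ t) i j).re +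
        (ρ t i j).im * (lind L (H t) (ρ t) i j).im)) t := by
      have := HasDerivAt.fun_sum (u := Finset.univ) (fun i _ => HasDerivAt.fun_sum (u := Finset.univ)
        (fun j _ => hd1 i j))
      exact this
    rw [hd2.fun_neg.deriv, add_zero]
    have hb : ∑ i, ∑ j, 2 * ((ρ t i j).re * (lind L (H t) (ρ t) i j).re +
        (ρ t i j).im * (lind L (H t) (ρ t) i j).im) ≤ ∑ _i : Fin d, ∑ _j : Fin d, 2 * M * f t := by
      apply Finset.sum_le_sum; intro i _
      apply Finset.sum_le_sum; intro j _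
      have h1 : (ρ t i j).re * (lind L (H t) (ρ t) i j).re +
        (ρ t i j).im * (lind L (H t) (ρ t) i j).im = ((starRingEnd ℂ (ρ t i j)) * lind L (H t) (ρ t) i j).re := by
        rw [Complex.mul_re, Complex.conj_re, Complex.conj_im]; ring
      rw [h1]
      have h2 : ((starRingEnd ℂ (ρ t i j)) * lind L (H t) (ρ t) i j).re ≤ √(f t) * (M * √(f t)) := by
        refine (Complex.re_le_norm _).trans ?_
        rw [norm_mul, RCLike.norm_conj]
        exact mul_le_mul (hle t i j) (hM _ _ _ (hC t (le_trans hs htI.1) htI.2) (hle t) i j)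
          (norm_nonneg _) (Real.sqrt_nonneg _)
      have h3 : √(f t) * (M * √(f t)) = M * f t := by
        have := Real.mul_self_sqrt (hf0 t)
        calc √(f t) * (M * √(f t)) = M * (√(f t) * √(f t)) := by ring
          _ = _ := by rw [this]
      rw [h3] at h2
      linarith
    have e2 : ∑ _i : Fin d, ∑ _j : Fin d, 2 * M * f t = d * (d * (2 * M)) * f t := by simp; ring
    rw [e2] at hb
    linarith)
  have hfs : f s = 0 := by simp [hf, h0]
  rw [add_zero, add_zero, hfs, neg_zero, mul_zero] at key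
  have hfT : f T = 0 := le_antisymm (by linarith) (hf0 T)
  ext i j
  have := hle T i j
  rw [hfT, Real.sqrt_zero] at this
  simpa using this

lemma traj_unique (hH : IsDrive H) {s : ℝ} (hs : 0 ≤ s) {ρ σ : ℝ → Matrix (Fin d) (Fin d) ℂ}
    (h : IsTraj L H s ρ) (h' : IsTraj L H s σ) (h0 : ρ s = σ s) {T : ℝ} (hT : s ≤ T) : ρ T = σ T := by
  have := traj_zero hH hs (traj_sub h h') (by simp [h0]) hT
  exact sub_eq_zero.1 this

lemma traj_herm (hH : IsDrive H) {s : ℝ} (hs : 0 ≤ s) {ρ : ℝ → Matrix (Fin d) (Fin d) ℂ}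
    (h : IsTraj L H s ρ) (h0 : (ρ s).IsHermitian) {T : ℝ} (hT : s ≤ T) : (ρ T).IsHermitian :=
  traj_unique hH hs (traj_conj hH hs h) h h0.eq hT

lemma traj_trace {s : ℝ} {ρ : ℝ → Matrix (Fin d) (Fin d) ℂ}
    (h : IsTraj L H s ρ) {T : ℝ} (hT : s ≤ T) : (ρ T).trace = (ρ s).trace := by
  unfold Matrix.trace
  simp only [Matrix.diag_apply]
  simp only [(h T hT _ _).2]
  rw [Finset.sum_add_distrib, ← intervalIntegral.integral_finsetSum (fun i _ => (h T hT i i).1)]
  have e : ∀ r, ∑ i, lind L (H r) (ρ r) i i = 0 := fun r => lind_trace L (H r) (ρ r)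
  simp [e]

variable {E : ℝ → ℝ → (Matrix (Fin d) (Fin d) ℂ →ₗ[ℂ] Matrix (Fin d) (Fin d) ℂ)}

lemma prop_id (hE : IsPropagator L H E) {s : ℝ} (hs : 0 ≤ s) (X : Matrix (Fin d) (Fin d) ℂ) :
    E s s X = X := by
  ext i j
  rw [(hE s s hs le_rfl X i j).2]
  simp

lemma prop_traj (hE : IsPropagator L H E) {s : ℝ} (hs : 0 ≤ s) (X : Matrix (Fin d) (Fin d) ℂ) :
    IsTraj L H s (fun t => E t s X) := by
  intro t ht i j
  obtain ⟨h1, h2⟩ := hE s t hs ht X i j
  refine ⟨h1, ?_⟩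
  simp only [prop_id hE hs X]
  exact h2

lemma prop_cocycle (hH : IsDrive H) (hE : IsPropagator L H E) {s r t : ℝ} (hs : 0 ≤ s) (hsr : s ≤ r)
    (hrt : r ≤ t) (X : Matrix (Fin d) (Fin d) ℂ) : E t r (E r s X) = E t s X := by
  have hr : 0 ≤ r := le_trans hs hsr
  exact traj_unique hH hr (prop_traj hE hr (E r s X)) (traj_restrict hsr (prop_traj hE hs X))
    (prop_id hE hr _) hrt

end evol

end Pool.Agent.H994.Driven
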