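import Mathlib
import Pool.Agent.H994.Driven.Evol

namespace Pool.Agent.H994.Driven

open Matrix MeasureTheory
open scoped ComplexOrder

section lip
variable {d m : ℕ}

lemma Gf_sub (U : Matrix (Fin d) (Fin d) ℂ) (A : Finset (Fin d)) (X Y : Matrix (Fin d) (Fin d) ℂ) :
    Gf U A X - Gf U A Y = Gf U A (X - Y) := by
  unfold Gf
  rw [← Finset.sum_sub_distrib]
  apply Finset.sum_congr rfl
  intro i _
  rw [Matrix.mul_sub, Matrix.sub_mul, Matrix.sub_apply, Complex.sub_re]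

lemma Gf_abs_le {U : Matrix (Fin d) (Fin d) ℂ} (hU : Uᴴ * U = 1) (A : Finset (Fin d))
    (X : Matrix (Fin d) (Fin d) ℂ) : |Gf U A X| ≤ d * ∑ a, ∑ b, ‖X a b‖ := by
  have h1 : ∀ i, |((Uᴴ * X * U) i i).re| ≤ ∑ a, ∑ b, ‖X a b‖ := by
    intro i
    refine (Complex.abs_re_le_norm _).trans ?_
    have e : (Uᴴ * X * U) i i = ∑ b, ∑ a, star (U a i) * X a b * U b i := by
      rw [Matrix.mul_apply]
      apply Finset.sum_congr rfl; intro b _
      rw [Matrix.mul_apply, Finset.sum_mul]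
      apply Finset.sum_congr rfl; intro a _
      rw [Matrix.conjTranspose_apply]
    rw [e, Finset.sum_comm]
    refine (norm_sum_le _ _).trans (Finset.sum_le_sum (fun a _ => (norm_sum_le _ _).trans
      (Finset.sum_le_sum (fun b _ => ?_))))
    rw [norm_mul, norm_mul, norm_star]
    calc ‖U a i‖ * ‖X a b‖ * ‖U b i‖ ≤ 1 * ‖X a b‖ * 1 := by
          apply mul_le_mul _ (entry_le_one hU b i) (norm_nonneg _) (by positivity)
          exact mul_le_mul_of_nonneg_right (entry_le_one hU a i) (norm_nonneg _)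
      _ = ‖X a b‖ := by ring
  unfold Gf
  calc |∑ i ∈ A, ((Uᴴ * X * U) i i).re| ≤ ∑ i ∈ A, |((Uᴴ * X * U) i i).re| :=
        Finset.abs_sum_le_sum_abs _ _
    _ ≤ ∑ i, |((Uᴴ * X * U) i i).re| :=
        Finset.sum_le_univ_sum_of_nonneg (fun _ => abs_nonneg _)
    _ ≤ ∑ _i : Fin d, ∑ a, ∑ b, ‖X a b‖ := Finset.sum_le_sum (fun i _ => h1 i)
    _ = d * ∑ a, ∑ b, ‖X a b‖ := by simp

/-- Eigen data adapted to `sk k`. -/
lemma sk_data {X : Matrix (Fin d) (Fin d) ℂ} (hX : X.IsHermitian) {k : ℕ} (hk1 : 1 ≤ k) (hk : k ≤ d) :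
    ∃ (V : Matrix (Fin d) (Fin d) ℂ) (lam : Fin d → ℝ) (A : Finset (Fin d)) (μ : ℝ), Vᴴ * V = 1 ∧
      Vᴴ * X * V = Matrix.diagonal (fun i => (lam i : ℂ)) ∧ A.card = k ∧ (∀ i ∈ A, lam i ≤ μ) ∧
      (∀ i, i ∉ A → μ ≤ lam i) ∧ sk k X = ∑ i ∈ A, lam i ∧ Gf V A X = sk k X := by
  obtain ⟨V, lam, hV, hVX⟩ := spectral hX
  obtain ⟨A, μ, hA, hA1, hA2⟩ := exists_bottom lam hk1 hk
  have := sk_spec hV hVX hA1 hA2
  rw [hA] at this
  exact ⟨V, lam, A, μ, hV, hVX, hA, hA1, hA2, this.1, by rw [this.1, this.2]⟩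

lemma sk_lip_one {X Y : Matrix (Fin d) (Fin d) ℂ} (hX : X.IsHermitian) (hY : Y.IsHermitian) {k : ℕ}
    (hk1 : 1 ≤ k) (hk : k ≤ d) : sk k Y - sk k X ≤ d * ∑ a, ∑ b, ‖Y a b - X a b‖ := by
  obtain ⟨V, lam, A, μ, hV, hVX, hA, hA1, hA2, hs, hG⟩ := sk_data hX hk1 hk
  have h1 := sk_le hY hk1 hk hV hA
  have h2 := Gf_sub V A Y X
  have h3 := (le_abs_self _).trans (Gf_abs_le hV A (Y - X))
  simp only [Matrix.sub_apply] at h3
  linarith

lemma sk_lip {X Y : Matrix (Fin d) (Fin d) ℂ} (hX : X.IsHermitian) (hY : Y.IsHermitian) {k : ℕ}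
    (hk1 : 1 ≤ k) (hk : k ≤ d) : |sk k Y - sk k X| ≤ d * ∑ a, ∑ b, ‖Y a b - X a b‖ := by
  rw [abs_le]
  constructor
  · have h1 := sk_lip_one hY hX hk1 hk
    have h2 : ∑ a, ∑ b, ‖X a b - Y a b‖ = ∑ a, ∑ b, ‖Y a b - X a b‖ := by
      apply Finset.sum_congr rfl; intro a _
      apply Finset.sum_congr rfl; intro b _
      exact norm_sub_rev _ _
    rw [h2] at h1
    linarith
  · exact sk_lip_one hX hY hk1 hk

lemma sk_trace {X : Matrix (Fin d) (Fin d) ℂ} (hX : X.IsHermitian) (hd : 1 ≤ d) :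
    sk d X = X.trace.re := by
  obtain ⟨V, lam, A, μ, hV, hVX, hA, hA1, hA2, hs, hG⟩ := sk_data hX hd le_rfl
  have hA' : A = Finset.univ := by
    rw [← Finset.card_eq_iff_eq_univ]; simpa using hA
  rw [← hG, hA']
  unfold Gf
  rw [← Complex.re_sum]
  congr 1
  have : ∑ i, (Vᴴ * X * V) i i = (Vᴴ * X * V).trace := rfl
  have hV' : V * Vᴴ = 1 := mul_eq_one_comm.1 hV
  rw [this, Matrix.trace_mul_comm, ← Matrix.mul_assoc, hV', Matrix.one_mul]

/-- Hermitian matrices with `sk 1 ≥ a` dominate `a`. -/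
lemma psd_of_sk {X : Matrix (Fin d) (Fin d) ℂ} (hX : X.IsHermitian) (hd : 1 ≤ d) {a : ℝ}
    (ha : a ≤ sk 1 X) : (X - (a : ℂ) • (1 : Matrix (Fin d) (Fin d) ℂ)).PosSemidef := by
  obtain ⟨V, lam, hV, hVX⟩ := spectral hX
  have hV' : V * Vᴴ = 1 := mul_eq_one_comm.1 hV
  have hlam : ∀ i, a ≤ lam i := by
    intro i
    have h1 := sk_le hX le_rfl hd hV (B := {i}) (Finset.card_singleton i)
    unfold Gf at h1
    rw [Finset.sum_singleton, hVX] at h1
    simp at h1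
    linarith
  have e : X - (a : ℂ) • (1 : Matrix (Fin d) (Fin d) ℂ) =
      V * Matrix.diagonal (fun i => ((lam i - a : ℝ) : ℂ)) * Vᴴ := by
    have h1 : Matrix.diagonal (fun i => ((lam i - a : ℝ) : ℂ)) =
        Vᴴ * (X - (a : ℂ) • (1 : Matrix (Fin d) (Fin d) ℂ)) * V := by
      rw [Matrix.mul_sub, Matrix.sub_mul, hVX, Matrix.mul_smul, Matrix.smul_mul, Matrix.mul_one, hV]
      ext i j
      by_cases hij : i = j
      · subst hij; simp
      · simp [hij, Matrix.diagonal_apply_ne]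
    rw [h1]
    calc X - (a : ℂ) • (1 : Matrix (Fin d) (Fin d) ℂ) =
        (V * Vᴴ) * (X - (a : ℂ) • (1 : Matrix (Fin d) (Fin d) ℂ)) * (V * Vᴴ) := by
          rw [hV', Matrix.one_mul, Matrix.mul_one]
      _ = _ := by simp only [Matrix.mul_assoc]
  rw [e]
  apply Matrix.PosSemidef.mul_mul_conjTranspose_same
  apply Matrix.PosSemidef.diagonal
  intro i
  have := hlam i
  simp only [Pi.zero_apply]
  rw [Complex.zero_le_real]
  linarith

lemma sk_of_psd {X : Matrix (Fin d) (Fin d) ℂ} (hX : X.PosSemidef) (hd : 1 ≤ d) : 0 ≤ sk 1 X := by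
  obtain ⟨V, lam, A, μ, hV, hVX, hA, hA1, hA2, hs, hG⟩ := sk_data hX.isHermitian le_rfl hd
  rw [← hG]
  unfold Gf
  apply Finset.sum_nonneg
  intro i _
  have h1 : (Vᴴ * X * V).PosSemidef := hX.conjTranspose_mul_mul_same V
  have := h1.diag_nonneg (i := i)
  exact (Complex.le_def.1 this).1

/-- All sums are nonnegative if the smallest eigenvalue is. -/
lemma lam_nonneg {X V : Matrix (Fin d) (Fin d) ℂ} (hX : X.IsHermitian) (hd : 1 ≤ d)
    (hX1 : 0 ≤ sk 1 X) (hV : Vᴴ * V = 1) {lam : Fin d → ℝ}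
    (hVX : Vᴴ * X * V = Matrix.diagonal (fun i => (lam i : ℂ))) (i : Fin d) : 0 ≤ lam i := by
  have h1 := sk_le hX le_rfl hd hV (B := {i}) (Finset.card_singleton i)
  unfold Gf at h1
  rw [Finset.sum_singleton, hVX] at h1
  simp at h1
  linarith

end lip

section flow
variable {d m : ℕ} {L : Fin m → Matrix (Fin d) (Fin d) ℂ} {H : ℝ → Matrix (Fin d) (Fin d) ℂ}

lemma skt_ac (hH : IsDrive H) {s : ℝ} (hs : 0 ≤ s) {ρ : ℝ → Matrix (Fin d) (Fin d) ℂ}
    (h : IsTraj L H s ρ) (h0 : (ρ s).IsHermitian) {k : ℕ} (hk1 : 1 ≤ k) (hk : k ≤ d) {a b : ℝ}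
    (ha : s ≤ a) (hab : a ≤ b) : AbsolutelyContinuousOnInterval (fun t => sk k (ρ t)) a b := by
  obtain ⟨M, hM0, hM⟩ := traj_lip hH hs h (le_trans ha hab)
  apply ac_of_lip (M := d * (d * (d * M))) hab (by positivity)
  intro r hr t ht
  have hr' : s ≤ r := le_trans ha hr.1
  have ht' : s ≤ t := le_trans ha ht.1
  refine (sk_lip (traj_herm hH hs h h0 hr') (traj_herm hH hs h h0 ht') hk1 hk).trans ?_
  calc (d:ℝ) * ∑ i, ∑ j, ‖ρ t i j - ρ r i j‖ ≤ d * ∑ _i : Fin d, ∑ _j : Fin d, M * |t - r| := by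
        apply mul_le_mul_of_nonneg_left _ (Nat.cast_nonneg d)
        apply Finset.sum_le_sum; intro i _
        apply Finset.sum_le_sum; intro j _
        exact hM r ⟨hr', hr.2⟩ t ⟨ht', ht.2⟩ i j
    _ = d * (d * (d * M)) * |t - r| := by simp; ring

/-- Danskin's formula. -/
lemma danskin (hH : IsDrive H) {s : ℝ} (hs : 0 ≤ s) {ρ : ℝ → Matrix (Fin d) (Fin d) ℂ}
    (h : IsTraj L H s ρ) (h0 : (ρ s).IsHermitian) {k : ℕ} (hk1 : 1 ≤ k) (hk : k ≤ d) {t : ℝ}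
    (ht : s < t) (hder : ∀ i j, HasDerivAt (fun r => ρ r i j) (lind L (H t) (ρ t) i j) t)
    (hdiff : DifferentiableAt ℝ (fun t => sk k (ρ t)) t)
    {V : Matrix (Fin d) (Fin d) ℂ} {A : Finset (Fin d)} (hV : Vᴴ * V = 1) (hA : A.card = k)
    (hG : Gf V A (ρ t) = sk k (ρ t)) :
    deriv (fun t => sk k (ρ t)) t = Gf V A (lind L (H t) (ρ t)) := by
  have h1 : ∀ i, HasDerivAt (fun r => ((Vᴴ * ρ r * V) i i).re)
      ((Vᴴ * lind L (H t) (ρ t) * V) i i).re t := by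
    intro i
    have h2 : HasDerivAt (fun r => (Vᴴ * ρ r * V) i i) ((Vᴴ * lind L (H t) (ρ t) * V) i i) t := by
      have e : ∀ X : Matrix (Fin d) (Fin d) ℂ, (Vᴴ * X * V) i i = ∑ b, (∑ a, Vᴴ i a * X a b) * V b i := by
        intro X
        rw [Matrix.mul_apply]
        apply Finset.sum_congr rfl; intro b _
        rw [Matrix.mul_apply]
      simp only [e]
      exact HasDerivAt.fun_sum (fun b _ => (HasDerivAt.fun_sum (fun a _ =>
        (hder a b).const_mul (Vᴴ i a))).mul_const (V b i))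
    exact Complex.reCLM.hasFDerivAt.comp_hasDerivAt t h2
  have h3 : HasDerivAt (fun r => Gf V A (ρ r)) (Gf V A (lind L (H t) (ρ t))) t := by
    unfold Gf
    exact HasDerivAt.fun_sum (fun i _ => h1 i)
  have h4 : IsLocalMin (fun r => Gf V A (ρ r) - sk k (ρ r)) t := by
    filter_upwards [Ioi_mem_nhds ht] with r hr
    rw [hG, sub_self]
    have := sk_le (traj_herm hH hs h h0 (le_of_lt hr)) hk1 hk hV hA
    linarith
  have h5 := h4.hasDerivAt_eq_zero (h3.fun_sub hdiff.hasDerivAt)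
  linarith

/-- The bottom eigenvalue stays nonnegative. -/
lemma pos_preserved (hd : 1 ≤ d) (hH : IsDrive H) {s : ℝ} (hs : 0 ≤ s)
    {ρ : ℝ → Matrix (Fin d) (Fin d) ℂ}
    (h : IsTraj L H s ρ) (h0 : (ρ s).PosSemidef) {T : ℝ} (hT : s ≤ T) : 0 ≤ sk 1 (ρ T) := by
  obtain ⟨C, hC0, hC⟩ := exists_upper L
  apply nonneg_lemma (f := fun t => sk 1 (ρ t)) (K := C) hT
    (skt_ac hH hs h h0.isHermitian le_rfl hd le_rfl hT) (sk_of_psd h0 hd)
  filter_upwards [traj_deriv h hT] with t ht hmem hdiff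
  obtain ⟨V, lam, A, μ, hV, hVX, hA, hA1, hA2, hs', hG⟩ :=
    sk_data (traj_herm hH hs h h0.isHermitian hmem.1.le) le_rfl hd
  rw [danskin hH hs h h0.isHermitian le_rfl hd hmem.1 (ht hmem) hdiff hV hA hG,
    gen_sum L (H t) hV hVX A]
  obtain ⟨i0, hi0⟩ := Finset.card_eq_one.1 hA
  rw [hs', hi0, Finset.sum_singleton, Finset.sum_singleton]
  have hlam : ∀ k, lam i0 ≤ lam k := by
    intro k
    by_cases hk : k = i0
    · rw [hk]
    · exact le_trans (hA1 i0 (by rw [hi0]; simp)) (hA2 k (by rw [hi0]; simpa using hk))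
  have hr1 : ∑ k ∈ ({i0} : Finset (Fin d))ᶜ, rate L V i0 k ≤ C :=
    (Finset.sum_le_univ_sum_of_nonneg (fun k => rate_nonneg L V i0 k)).trans (hC V hV i0).2
  have hr2 : ∑ k ∈ ({i0} : Finset (Fin d))ᶜ, rate L V k i0 ≤ C :=
    (Finset.sum_le_univ_sum_of_nonneg (fun k => rate_nonneg L V k i0)).trans (hC V hV i0).1
  have hr1' : 0 ≤ ∑ k ∈ ({i0} : Finset (Fin d))ᶜ, rate L V i0 k :=
    Finset.sum_nonneg (fun k _ => rate_nonneg L V i0 k)
  have hr2' : 0 ≤ ∑ k ∈ ({i0} : Finset (Fin d))ᶜ, rate L V k i0 :=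
    Finset.sum_nonneg (fun k _ => rate_nonneg L V k i0)
  have key : (∑ k ∈ ({i0} : Finset (Fin d))ᶜ, rate L V i0 k) * lam i0 -
      (∑ k ∈ ({i0} : Finset (Fin d))ᶜ, rate L V k i0) * lam i0 ≤
      ∑ k ∈ ({i0} : Finset (Fin d))ᶜ, (rate L V i0 k * lam k - rate L V k i0 * lam i0) := by
    rw [Finset.sum_sub_distrib, Finset.sum_mul, Finset.sum_mul]
    apply sub_le_sub_right
    apply Finset.sum_le_sum
    intro k _
    exact mul_le_mul_of_nonneg_left (hlam k) (rate_nonneg L V i0 k)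
  refine le_trans ?_ key
  rcases le_total 0 (lam i0) with hl | hl
  · rw [abs_of_nonneg hl]
    nlinarith
  · rw [abs_of_nonpos hl]
    nlinarith

/-- The basic differential inequality. -/
lemma sk_ineq {C c : ℝ} (hC : ∀ V : Matrix (Fin d) (Fin d) ℂ, Vᴴ * V = 1 →
    ∀ i, ∑ k, rate L V k i ≤ C ∧ ∑ k, rate L V i k ≤ C)
    (hc : ∀ V : Matrix (Fin d) (Fin d) ℂ, Vᴴ * V = 1 → ∀ A : Finset (Fin d), A.Nonempty → Aᶜ.Nonempty →
    c ≤ ∑ i ∈ A, ∑ k ∈ Aᶜ, rate L V i k)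
    (hH : IsDrive H) {s : ℝ} (hs : 0 ≤ s)
    {ρ : ℝ → Matrix (Fin d) (Fin d) ℂ} (h : IsTraj L H s ρ) (h0 : (ρ s).PosSemidef) {T : ℝ} (hT : s ≤ T)
    {k : ℕ} (hk1 : 1 ≤ k) (hk : k + 1 ≤ d) :
    ∀ᵐ t, t ∈ Set.Ioo s T → DifferentiableAt ℝ (fun t => sk k (ρ t)) t →
      c * (sk (k+1) (ρ t) - sk k (ρ t)) - C * sk k (ρ t) ≤ deriv (fun t => sk k (ρ t)) t := by
  filter_upwards [traj_deriv h hT] with t ht hmem hdiff
  have hd : 1 ≤ d := by omega
  have hherm := traj_herm hH hs h h0.isHermitian hmem.1.le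
  obtain ⟨V, lam, A, μ, hV, hVX, hA, hA1, hA2, hs', hG⟩ := sk_data hherm hk1 (by omega : k ≤ d)
  rw [danskin hH hs h h0.isHermitian hk1 (by omega) hmem.1 (ht hmem) hdiff hV hA hG,
    gen_sum L (H t) hV hVX A]
  have hlam0 : ∀ i, 0 ≤ lam i := fun i =>
    lam_nonneg hherm hd (pos_preserved hd hH hs h h0 hmem.1.le) hV hVX i
  have hAne : A.Nonempty := by
    rw [← Finset.card_pos]; omega
  have hAc : Aᶜ.Nonempty := by
    rw [← Finset.card_pos, Finset.card_compl, Fintype.card_fin]; omega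
  obtain ⟨i1, hi1, hmin⟩ := Finset.exists_min_image Aᶜ lam hAc
  have hi1' : i1 ∉ A := Finset.mem_compl.1 hi1
  have hcard : (insert i1 A).card = k + 1 := by rw [Finset.card_insert_of_notMem hi1', hA]
  have hstep : sk (k+1) (ρ t) = lam i1 + ∑ i ∈ A, lam i := by
    have := (sk_spec hV hVX (A := insert i1 A) (μ := lam i1) (by
      intro i hi
      rcases Finset.mem_insert.1 hi with rfl | hi
      · exact le_rfl
      · exact le_trans (hA1 i hi) (hA2 i1 hi1')) (by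
      intro i hi
      apply hmin i
      rw [Finset.mem_compl]
      exact fun h => hi (Finset.mem_insert_of_mem h))).1
    rw [hcard] at this
    rw [this, Finset.sum_insert hi1']
  rw [hstep, hs']
  have h1 : ∑ i ∈ A, ∑ k ∈ Aᶜ, (rate L V i k * lam i1 - rate L V k i * lam i) ≤
      ∑ i ∈ A, ∑ k ∈ Aᶜ, (rate L V i k * lam k - rate L V k i * lam i) := by
    apply Finset.sum_le_sum; intro i _
    apply Finset.sum_le_sum; intro k hk
    apply sub_le_sub_right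
    exact mul_le_mul_of_nonneg_left (hmin k hk) (rate_nonneg L V i k)
  refine le_trans ?_ h1
  have h2 : ∑ i ∈ A, ∑ k ∈ Aᶜ, (rate L V i k * lam i1 - rate L V k i * lam i) =
      (∑ i ∈ A, ∑ k ∈ Aᶜ, rate L V i k) * lam i1 - ∑ i ∈ A, (∑ k ∈ Aᶜ, rate L V k i) * lam i := by
    simp only [Finset.sum_sub_distrib, Finset.sum_mul]
  rw [h2]
  have h3 : c * lam i1 ≤ (∑ i ∈ A, ∑ k ∈ Aᶜ, rate L V i k) * lam i1 :=
    mul_le_mul_of_nonneg_right (hc V hV A hAne hAc) (hlam0 i1)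
  have h4 : ∑ i ∈ A, (∑ k ∈ Aᶜ, rate L V k i) * lam i ≤ C * ∑ i ∈ A, lam i := by
    rw [Finset.mul_sum]
    apply Finset.sum_le_sum; intro i _
    apply mul_le_mul_of_nonneg_right _ (hlam0 i)
    exact (Finset.sum_le_univ_sum_of_nonneg (fun k => rate_nonneg L V k i)).trans (hC V hV i).1
  have h5 : lam i1 + ∑ i ∈ A, lam i - ∑ i ∈ A, lam i = lam i1 := by ring
  rw [h5]
  linarith

end flow

end Pool.Agent.H994.Driven
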