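import Mathlib
import Pool.Agent.H994.Driven.Flow

namespace Pool.Agent.H994.Driven

open Matrix MeasureTheory
open scoped ComplexOrder

section chain
variable {d m : ℕ} {L : Fin m → Matrix (Fin d) (Fin d) ℂ}

/-- The chain of lower bounds. -/
lemma chain (hd : 1 ≤ d) (hL : Algebra.adjoin ℂ (Set.range L) = ⊤) (j : ℕ) (hj : j + 1 ≤ d) :
    ∃ δ : ℝ, 0 < δ ∧ ∀ H : ℝ → Matrix (Fin d) (Fin d) ℂ, IsDrive H → ∀ s : ℝ, 0 ≤ s →
      ∀ ρ : ℝ → Matrix (Fin d) (Fin d) ℂ, IsTraj L H s ρ → (ρ s).PosSemidef →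
      ∀ t : ℝ, s + j ≤ t → δ * (ρ s).trace.re ≤ sk (d - j) (ρ t) := by
  obtain ⟨C, hC0, hC⟩ := exists_upper L
  obtain ⟨c, hc0, hc⟩ := exists_lower L hL
  induction j with
  | zero =>
    refine ⟨1, one_pos, fun H hH s hs ρ h h0 t ht => ?_⟩
    have hst : s ≤ t := by simpa using ht
    rw [Nat.sub_zero, sk_trace (traj_herm hH hs h h0.isHermitian hst) hd, traj_trace h hst, one_mul]
  | succ j ih =>
    obtain ⟨δ, hδ0, hδ⟩ := ih (by omega)
    have hexp : Real.exp (-(C + c)) < 1 := by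
      rw [Real.exp_lt_one_iff]; linarith
    have hpos : 0 < c * δ / (C + c) * (1 - Real.exp (-(C + c))) :=
      mul_pos (by positivity) (by linarith)
    refine ⟨c * δ / (C + c) * (1 - Real.exp (-(C + c))), hpos, fun H hH s hs ρ h h0 t ht => ?_⟩
    set τ := (ρ s).trace.re with hτ
    have hτ0 : 0 ≤ τ := (Complex.le_def.1 h0.trace_nonneg).1
    set a : ℝ := s + j with ha
    have hsa : s ≤ a := by rw [ha]; linarith [(Nat.cast_nonneg j : (0:ℝ) ≤ j)]
    have hat : a + 1 ≤ t := by rw [ha]; push_cast at ht; linarith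
    have hab : a ≤ t := by linarith
    set k := d - (j + 1) with hk
    have hk1 : 1 ≤ k ∨ k = 0 := by omega
    have hkd : k + 1 = d - j := by omega
    rcases hk1 with hk1 | hk0
    · have hac := skt_ac hH hs h h0.isHermitian hk1 (by omega : k ≤ d) hsa hab
      have hin := sk_ineq hC hc hH hs h h0 (le_trans hsa hab) hk1 (by omega : k + 1 ≤ d)
      have key := ode_lemma (f := fun t => sk k (ρ t)) (a := a) (b := t) (α := -(C + c))
        (c0 := -(c * δ * τ / (C + c))) hab hac (by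
          filter_upwards [hin] with r hr hmem hdiff
          have h1 := hr ⟨lt_of_le_of_lt hsa hmem.1, hmem.2⟩ hdiff
          have h2 := hδ H hH s hs ρ h h0 r hmem.1.le
          rw [← hkd, ← hτ] at h2
          refine le_trans ?_ h1
          have h3 : -(C + c) * (sk k (ρ r) + -(c * δ * τ / (C + c))) = c * (δ * τ) - (C + c) * sk k (ρ r) := by
            field_simp
            ring
          rw [h3]
          have h4 := mul_le_mul_of_nonneg_left h2 hc0.le
          linarith)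
      have hfa : 0 ≤ sk k (ρ a) := by
        have hherm := traj_herm hH hs h h0.isHermitian hsa
        obtain ⟨V, lam, A, μ, hV, hVX, hA, hA1, hA2, hs', hG⟩ := sk_data hherm hk1 (by omega : k ≤ d)
        rw [hs']
        exact Finset.sum_nonneg (fun i _ => lam_nonneg hherm hd (pos_preserved hd hH hs h h0 hsa) hV hVX i)
      set q := c * δ * τ / (C + c) with hq
      have hq0 : 0 ≤ q := by positivity
      have he : Real.exp (-(C + c) * (t - a)) ≤ Real.exp (-(C + c)) := by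
        apply Real.exp_le_exp.2
        nlinarith
      have he0 : 0 < Real.exp (-(C + c) * (t - a)) := Real.exp_pos _
      have e1 : c * δ / (C + c) * (1 - Real.exp (-(C + c))) * τ = q - q * Real.exp (-(C + c)) := by
        rw [hq]; ring
      rw [e1]
      have h6 : q * Real.exp (-(C + c) * (t - a)) ≤ q * Real.exp (-(C + c)) :=
        mul_le_mul_of_nonneg_left he hq0
      have h7 : 0 ≤ Real.exp (-(C + c) * (t - a)) * sk k (ρ a) := by positivity
      have key' : Real.exp (-(C + c) * (t - a)) * (sk k (ρ a) + -q) ≤ sk k (ρ t) + -q := key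
      have h8 : Real.exp (-(C + c) * (t - a)) * (sk k (ρ a) + -q) =
          Real.exp (-(C + c) * (t - a)) * sk k (ρ a) - q * Real.exp (-(C + c) * (t - a)) := by ring
      rw [h8] at key'
      linarith
    · omega

/-- The minorization (Doeblin) bound. -/
lemma doeblin (hd : 2 ≤ d) (hL : Algebra.adjoin ℂ (Set.range L) = ⊤) :
    ∃ δ : ℝ, 0 < δ ∧ δ * d ≤ 1 / 2 ∧ ∀ H : ℝ → Matrix (Fin d) (Fin d) ℂ, IsDrive H →
      ∀ E : ℝ → ℝ → (Matrix (Fin d) (Fin d) ℂ →ₗ[ℂ] Matrix (Fin d) (Fin d) ℂ), IsPropagator L H E →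
      ∀ s : ℝ, 0 ≤ s → ∀ X : Matrix (Fin d) (Fin d) ℂ, X.PosSemidef →
        (E (s + d) s X - ((δ * X.trace.re : ℝ) : ℂ) • (1 : Matrix (Fin d) (Fin d) ℂ)).PosSemidef := by
  obtain ⟨δ0, hδ0, hδ⟩ := chain (by omega : 1 ≤ d) hL (d - 1) (by omega)
  have hd0 : (0:ℝ) < d := by exact_mod_cast (by omega : 0 < d)
  refine ⟨min δ0 (1 / (2 * d)), lt_min hδ0 (by positivity), ?_, ?_⟩
  · calc min δ0 (1 / (2 * d)) * (d:ℝ) ≤ 1 / (2 * d) * d :=
          mul_le_mul_of_nonneg_right (min_le_right _ _) hd0.le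
      _ = 1 / 2 := by field_simp
  · intro H hH E hE s hs X hX
    have htr := prop_traj hE hs X
    have h0 : ((fun t => E t s X) s).PosSemidef := by
      simp only [prop_id hE hs X]; exact hX
    have ht : s ≤ s + d := by linarith
    have h1 := hδ H hH s hs _ htr h0 (s + d) (by
      have : ((d - 1 : ℕ) : ℝ) ≤ d := by exact_mod_cast Nat.sub_le d 1
      linarith)
    have e1 : d - (d - 1) = 1 := by omega
    rw [e1] at h1
    simp only [prop_id hE hs X] at h1
    apply psd_of_sk (traj_herm hH hs htr h0.isHermitian ht) (by omega)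
    refine le_trans ?_ h1
    apply mul_le_mul_of_nonneg_right (min_le_left _ _)
    exact (Complex.le_def.1 hX.trace_nonneg).1

end chain

section norms
variable {d : ℕ}

lemma psd_entry {P : Matrix (Fin d) (Fin d) ℂ} (hP : P.PosSemidef) (i j : Fin d) :
    ‖P i j‖ ≤ P.trace.re := by
  have hd : 1 ≤ d := by have := i.2; omega
  obtain ⟨V, lam, hV, hVX⟩ := spectral hP.isHermitian
  have hV' : V * Vᴴ = 1 := mul_eq_one_comm.1 hV
  have hlam : ∀ i, 0 ≤ lam i := lam_nonneg hP.isHermitian hd (sk_of_psd hP hd) hV hVX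
  have htr : P.trace.re = ∑ k, lam k := by
    have h1 : (Vᴴ * P * V).trace = P.trace := by
      rw [Matrix.trace_mul_comm, ← Matrix.mul_assoc, hV', Matrix.one_mul]
    rw [← h1, hVX, Matrix.trace_diagonal, Complex.re_sum]
    simp
  have e : P = V * Matrix.diagonal (fun i => (lam i : ℂ)) * Vᴴ := by
    rw [← hVX]
    calc P = (V * Vᴴ) * P * (V * Vᴴ) := by rw [hV', Matrix.one_mul, Matrix.mul_one]
      _ = _ := by simp only [Matrix.mul_assoc]
  rw [htr]
  conv_lhs => rw [e]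
  rw [Matrix.mul_apply]
  refine (norm_sum_le _ _).trans (Finset.sum_le_sum (fun k _ => ?_))
  rw [Matrix.mul_diagonal, Matrix.conjTranspose_apply, norm_mul, norm_mul, norm_star,
    Complex.norm_of_nonneg (hlam k)]
  calc ‖V i k‖ * lam k * ‖V j k‖ ≤ 1 * lam k * 1 := by
        apply mul_le_mul _ (entry_le_one hV j k) (norm_nonneg _) (by linarith [hlam k])
        exact mul_le_mul_of_nonneg_right (entry_le_one hV i k) (hlam k)
    _ = lam k := by ring

lemma sum_eig (A : Matrix (Fin d) (Fin d) ℂ) :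
    ∑ i, (Matrix.isHermitian_conjTranspose_mul_self A).eigenvalues i = ∑ i, ∑ j, ‖A j i‖^2 := by
  have h := (Matrix.isHermitian_conjTranspose_mul_self A).trace_eq_sum_eigenvalues
  have h2 : (Aᴴ * A).trace = ((∑ i, ∑ j, ‖A j i‖^2 : ℝ) : ℂ) := by
    unfold Matrix.trace
    simp only [Matrix.diag_apply, Matrix.mul_apply, Matrix.conjTranspose_apply]
    push_cast
    apply Finset.sum_congr rfl; intro i _
    apply Finset.sum_congr rfl; intro j _
    exact Complex.conj_mul' _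
  rw [h2] at h
  have h3 := congrArg Complex.re h
  rw [Complex.ofReal_re, Complex.re_sum] at h3
  simp only [Complex.coe_algebraMap, Complex.ofReal_re] at h3
  rw [h3]

lemma eig_nonneg (A : Matrix (Fin d) (Fin d) ℂ) (i : Fin d) :
    0 ≤ (Matrix.isHermitian_conjTranspose_mul_self A).eigenvalues i :=
  (Matrix.posSemidef_conjTranspose_mul_self A).eigenvalues_nonneg i

lemma traceNorm_le (A : Matrix (Fin d) (Fin d) ℂ) : traceNorm A ≤ d * ∑ i, ∑ j, ‖A j i‖ := by
  unfold traceNorm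
  have h1 : ∀ i, √((Matrix.isHermitian_conjTranspose_mul_self A).eigenvalues i) ≤ ∑ i, ∑ j, ‖A j i‖ := by
    intro i
    have h0 : 0 ≤ ∑ i, ∑ j, ‖A j i‖ := Finset.sum_nonneg (fun _ _ => Finset.sum_nonneg (fun _ _ => norm_nonneg _))
    rw [Real.sqrt_le_left h0]
    calc (Matrix.isHermitian_conjTranspose_mul_self A).eigenvalues i
        ≤ ∑ i, (Matrix.isHermitian_conjTranspose_mul_self A).eigenvalues i :=
          Finset.single_le_sum (fun i _ => eig_nonneg A i) (Finset.mem_univ i)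
      _ = ∑ i, ∑ j, ‖A j i‖^2 := sum_eig A
      _ ≤ ∑ i, (∑ j, ‖A j i‖)^2 := by
          apply Finset.sum_le_sum; intro i _
          exact Finset.sum_sq_le_sq_sum_of_nonneg (fun _ _ => norm_nonneg _)
      _ ≤ (∑ i, ∑ j, ‖A j i‖)^2 :=
          Finset.sum_sq_le_sq_sum_of_nonneg (fun _ _ => Finset.sum_nonneg (fun _ _ => norm_nonneg _))
  calc ∑ i, √((Matrix.isHermitian_conjTranspose_mul_self A).eigenvalues i)
      ≤ ∑ _i : Fin d, ∑ i, ∑ j, ‖A j i‖ := Finset.sum_le_sum (fun i _ => h1 i)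
    _ = d * ∑ i, ∑ j, ‖A j i‖ := by simp

lemma entry_le_traceNorm (A : Matrix (Fin d) (Fin d) ℂ) (i j : Fin d) : ‖A j i‖ ≤ traceNorm A := by
  have h0 : 0 ≤ traceNorm A := Finset.sum_nonneg (fun _ _ => Real.sqrt_nonneg _)
  have h1 : ‖A j i‖^2 ≤ (traceNorm A)^2 := by
    calc ‖A j i‖^2 ≤ ∑ j, ‖A j i‖^2 :=
          Finset.single_le_sum (f := fun j => ‖A j i‖^2) (fun _ _ => sq_nonneg _) (Finset.mem_univ j)
      _ ≤ ∑ i, ∑ j, ‖A j i‖^2 := Finset.single_le_sum (f := fun i => ∑ j, ‖A j i‖^2)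
          (fun _ _ => Finset.sum_nonneg (fun _ _ => sq_nonneg _)) (Finset.mem_univ i)
      _ = ∑ i, (Matrix.isHermitian_conjTranspose_mul_self A).eigenvalues i := (sum_eig A).symm
      _ = ∑ i, (√((Matrix.isHermitian_conjTranspose_mul_self A).eigenvalues i))^2 := by
          apply Finset.sum_congr rfl; intro i _
          rw [Real.sq_sqrt (eig_nonneg A i)]
      _ ≤ (traceNorm A)^2 := Finset.sum_sq_le_sq_sum_of_nonneg (fun _ _ => Real.sqrt_nonneg _)
  exact le_of_sq_le_sq h1 h0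

end norms

section main
variable {d m : ℕ} {L : Fin m → Matrix (Fin d) (Fin d) ℂ}

/-- Positivity of the propagator. -/
lemma prop_psd (hd : 1 ≤ d) {H : ℝ → Matrix (Fin d) (Fin d) ℂ} (hH : IsDrive H)
    {E : ℝ → ℝ → (Matrix (Fin d) (Fin d) ℂ →ₗ[ℂ] Matrix (Fin d) (Fin d) ℂ)}
    (hE : IsPropagator L H E) {s t : ℝ} (hs : 0 ≤ s) (hst : s ≤ t)
    {X : Matrix (Fin d) (Fin d) ℂ} (hX : X.PosSemidef) : (E t s X).PosSemidef := by
  have htr := prop_traj hE hs X
  have h0 : ((fun t => E t s X) s).PosSemidef := by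
    simp only [prop_id hE hs X]; exact hX
  have h1 := pos_preserved hd hH hs htr h0 hst
  have h2 := psd_of_sk (a := 0) (traj_herm hH hs htr h0.isHermitian hst) hd h1
  simpa using h2

lemma prop_trace {H : ℝ → Matrix (Fin d) (Fin d) ℂ}
    {E : ℝ → ℝ → (Matrix (Fin d) (Fin d) ℂ →ₗ[ℂ] Matrix (Fin d) (Fin d) ℂ)}
    (hE : IsPropagator L H E) {s t : ℝ} (hs : 0 ≤ s) (hst : s ≤ t)
    (X : Matrix (Fin d) (Fin d) ℂ) : (E t s X).trace = X.trace := by
  have h1 := traj_trace (prop_traj hE hs X) hst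
  rw [h1, prop_id hE hs X]

/-- Iterated minorization. -/
lemma iterate (hd : 2 ≤ d) {δ : ℝ} {H : ℝ → Matrix (Fin d) (Fin d) ℂ} (hH : IsDrive H)
    {E : ℝ → ℝ → (Matrix (Fin d) (Fin d) ℂ →ₗ[ℂ] Matrix (Fin d) (Fin d) ℂ)}
    (hE : IsPropagator L H E)
    (hdo : ∀ s : ℝ, 0 ≤ s → ∀ X : Matrix (Fin d) (Fin d) ℂ, X.PosSemidef →
        (E (s + d) s X - ((δ * X.trace.re : ℝ) : ℂ) • (1 : Matrix (Fin d) (Fin d) ℂ)).PosSemidef)
    {s : ℝ} (hs : 0 ≤ s) {P0 Q0 : Matrix (Fin d) (Fin d) ℂ} (hP0 : P0.PosSemidef) (hQ0 : Q0.PosSemidef)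
    (hPQ : P0.trace = Q0.trace) (n : ℕ) :
    ∃ P Q : Matrix (Fin d) (Fin d) ℂ, P.PosSemidef ∧ Q.PosSemidef ∧
      P.trace = (((1 - δ * d)^n : ℝ) : ℂ) * P0.trace ∧ Q.trace = (((1 - δ * d)^n : ℝ) : ℂ) * P0.trace ∧
      E (s + n * d) s (P0 - Q0) = P - Q := by
  induction n with
  | zero =>
    refine ⟨P0, Q0, hP0, hQ0, by simp, by simp [hPQ], ?_⟩
    simp [prop_id hE hs]
  | succ n ih =>
    obtain ⟨P, Q, hP, hQ, htP, htQ, hPQn⟩ := ih
    have hsn : s ≤ s + n * d := by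
      have : (0:ℝ) ≤ n * d := by positivity
      linarith
    have hs' : 0 ≤ s + n * d := le_trans hs hsn
    have hd0 : (0:ℝ) ≤ d := Nat.cast_nonneg d
    have hst : s + n * d ≤ s + n * d + d := by linarith
    have hPtr : ((P.trace.re : ℝ) : ℂ) = P.trace := by
      apply Complex.ext
      · simp
      · simpa using (Complex.nonneg_iff.1 hP.trace_nonneg).2
    have hQtr : ((Q.trace.re : ℝ) : ℂ) = Q.trace := by
      rw [htQ, ← htP]; exact hPtr
    refine ⟨_, _, hdo _ hs' P hP, hdo _ hs' Q hQ, ?_, ?_, ?_⟩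
    · rw [Matrix.trace_sub, prop_trace hE hs' hst, Matrix.trace_smul, Matrix.trace_one,
        Fintype.card_fin, smul_eq_mul, Complex.ofReal_mul, hPtr, htP]
      push_cast
      ring
    · rw [Matrix.trace_sub, prop_trace hE hs' hst, Matrix.trace_smul, Matrix.trace_one,
        Fintype.card_fin, smul_eq_mul, Complex.ofReal_mul, hQtr, htQ]
      push_cast
      ring
    · have e1 : s + ((n + 1 : ℕ) : ℝ) * d = s + n * d + d := by push_cast; ring
      have e2 : P.trace.re = Q.trace.re := by rw [htP, htQ]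
      rw [e1, ← prop_cocycle hH hE hs hsn hst, hPQn, map_sub, e2]
      abel

/-- The uniform contraction estimate. -/
theorem uniform (hd : 2 ≤ d) (hL : Algebra.adjoin ℂ (Set.range L) = ⊤) :
    ∃ C : ℝ, 0 < C ∧ ∃ γ : ℝ, 0 < γ ∧ ∀ H : ℝ → Matrix (Fin d) (Fin d) ℂ, IsDrive H →
      ∀ E : ℝ → ℝ → (Matrix (Fin d) (Fin d) ℂ →ₗ[ℂ] Matrix (Fin d) (Fin d) ℂ), IsPropagator L H E →
      ∀ s t : ℝ, 0 ≤ s → s ≤ t → ∀ ρ σ : Matrix (Fin d) (Fin d) ℂ, IsDensity ρ → IsDensity σ →
        traceNorm (E t s ρ - E t s σ) ≤ C * Real.exp (-(γ * (t - s))) * traceNorm (ρ - σ) := by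
  obtain ⟨δ, hδ0, hδ1, hδ⟩ := doeblin hd hL
  have hd0 : (0:ℝ) < d := by exact_mod_cast (by omega : 0 < d)
  set q : ℝ := 1 - δ * d with hq
  have hq0 : 1 / 2 ≤ q := by rw [hq]; linarith
  have hq1 : q < 1 := by rw [hq]; nlinarith
  have hqpos : 0 < q := by linarith
  have hlog : Real.log q < 0 := Real.log_neg hqpos hq1
  set γ : ℝ := -Real.log q / d with hγ
  have hγ0 : 0 < γ := div_pos (by linarith) hd0
  refine ⟨4 * d^7, by positivity, γ, hγ0, fun H hH E hE s t hs hst ρ σ hρ hσ => ?_⟩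
  set X := ρ - σ with hX
  set N : ℝ := traceNorm X with hN
  have hN0 : 0 ≤ N := Finset.sum_nonneg (fun _ _ => Real.sqrt_nonneg _)
  set κ : ℝ := d * (d * (d * N)) with hκ
  have hκ0 : 0 ≤ κ := by positivity
  have hXh : X.IsHermitian := hρ.1.isHermitian.sub hσ.1.isHermitian
  have hXtr : X.trace = 0 := by rw [hX, Matrix.trace_sub, hρ.2, hσ.2, sub_self]
  -- the shift of `X` by `κ` is positive
  have hP0 : (X + (κ : ℂ) • (1 : Matrix (Fin d) (Fin d) ℂ)).PosSemidef := by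
    have h1 : -κ ≤ sk 1 X := by
      obtain ⟨V, lam, A, μ, hV, hVX, hA, hA1, hA2, hs', hG⟩ := sk_data hXh le_rfl (by omega : 1 ≤ d)
      rw [← hG]
      have h2 := (neg_le_abs (Gf V A X)).trans (Gf_abs_le hV A X)
      have h3 : ∑ a, ∑ b, ‖X a b‖ ≤ ∑ _a : Fin d, ∑ _b : Fin d, N :=
        Finset.sum_le_sum (fun a _ => Finset.sum_le_sum (fun b _ => entry_le_traceNorm X b a))
      have h4 : ∑ _a : Fin d, ∑ _b : Fin d, N = d * (d * N) := by simp
      rw [h4] at h3
      have h5 := mul_le_mul_of_nonneg_left h3 hd0.le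
      linarith
    have h2 := psd_of_sk hXh (by omega) h1
    have e : X - ((-κ : ℝ) : ℂ) • (1 : Matrix (Fin d) (Fin d) ℂ) =
        X + (κ : ℂ) • (1 : Matrix (Fin d) (Fin d) ℂ) := by
      rw [Complex.ofReal_neg, neg_smul, sub_neg_eq_add]
    rw [e] at h2
    exact h2
  have hQ0 : ((κ : ℂ) • (1 : Matrix (Fin d) (Fin d) ℂ)).PosSemidef := by
    have h1 : (Matrix.diagonal (fun _ : Fin d => (κ : ℂ))).PosSemidef := by
      apply Matrix.PosSemidef.diagonal
      intro i
      simp only [Pi.zero_apply]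
      rw [Complex.zero_le_real]
      exact hκ0
    rw [Matrix.smul_one_eq_diagonal]
    exact h1
  have htP0 : (X + (κ : ℂ) • (1 : Matrix (Fin d) (Fin d) ℂ)).trace = ((κ * d : ℝ) : ℂ) := by
    rw [Matrix.trace_add, hXtr, zero_add, Matrix.trace_smul, Matrix.trace_one, Fintype.card_fin,
      smul_eq_mul]
    push_cast; ring
  have htQ0 : ((κ : ℂ) • (1 : Matrix (Fin d) (Fin d) ℂ)).trace = ((κ * d : ℝ) : ℂ) := by
    rw [Matrix.trace_smul, Matrix.trace_one, Fintype.card_fin, smul_eq_mul]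
    push_cast; ring
  set n : ℕ := ⌊(t - s) / d⌋₊ with hn
  have hts : 0 ≤ (t - s) / d := div_nonneg (by linarith) hd0.le
  have hn1 : s + n * d ≤ t := by
    have := Nat.floor_le hts
    rw [← hn, le_div_iff₀ hd0] at this
    linarith
  have hn2 : t - s ≤ (n + 1) * d := by
    have := (Nat.lt_floor_add_one ((t - s) / d)).le
    rw [← hn, div_le_iff₀ hd0] at this
    linarith
  have hsn : s ≤ s + n * d := by
    have : (0:ℝ) ≤ n * d := by positivity
    linarith
  obtain ⟨P, Q, hP, hQ, htP, htQ, hPQ⟩ := iterate hd hH hE (hδ H hH E hE) hs hP0 hQ0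
    (by rw [htP0, htQ0]) n
  rw [add_sub_cancel_right] at hPQ
  have hs' : 0 ≤ s + n * d := le_trans hs hsn
  have e1 : E t s ρ - E t s σ = E t (s + n * d) P - E t (s + n * d) Q := by
    rw [← map_sub, ← hX, ← prop_cocycle hH hE hs hsn hn1, hPQ, map_sub]
  have hP' := prop_psd (by omega : 1 ≤ d) hH hE hs' hn1 hP
  have hQ' := prop_psd (by omega : 1 ≤ d) hH hE hs' hn1 hQ
  have htP' : (E t (s + n * d) P).trace.re = q^n * (κ * d) := by
    rw [prop_trace hE hs' hn1, htP, htP0, ← Complex.ofReal_mul, Complex.ofReal_re]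
  have htQ' : (E t (s + n * d) Q).trace.re = q^n * (κ * d) := by
    rw [prop_trace hE hs' hn1, htQ, htP0, ← Complex.ofReal_mul, Complex.ofReal_re]
  have hentry : ∀ i j, ‖(E t s ρ - E t s σ) j i‖ ≤ 2 * (q^n * (κ * d)) := by
    intro i j
    rw [e1, Matrix.sub_apply]
    refine (norm_sub_le _ _).trans ?_
    have h1 := psd_entry hP' j i
    have h2 := psd_entry hQ' j i
    rw [htP'] at h1
    rw [htQ'] at h2
    linarith
  have hqn : q^n ≤ 2 * Real.exp (-(γ * (t - s))) := by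
    have h1 : q^(n+1) ≤ Real.exp (-(γ * (t - s))) := by
      have h2 : q^(n+1) = Real.exp (((n:ℝ) + 1) * Real.log q) := by
        rw [← Real.exp_log hqpos, ← Real.exp_nat_mul, Real.exp_log hqpos]
        push_cast; ring_nf
      rw [h2]
      apply Real.exp_le_exp.2
      have h3 : ((n:ℝ) + 1) * Real.log q = -(γ * ((n + 1) * d)) := by
        rw [hγ]; field_simp
      rw [h3]
      have := mul_le_mul_of_nonneg_left hn2 hγ0.le
      linarith
    have h4 : q^n = q^(n+1) / q := by rw [pow_succ]; field_simp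
    rw [h4, div_le_iff₀ hqpos]
    nlinarith [Real.exp_pos (-(γ * (t - s)))]
  calc traceNorm (E t s ρ - E t s σ) ≤ d * ∑ i, ∑ j, ‖(E t s ρ - E t s σ) j i‖ := traceNorm_le _
    _ ≤ d * ∑ _i : Fin d, ∑ _j : Fin d, 2 * (q^n * (κ * d)) := by
        apply mul_le_mul_of_nonneg_left _ hd0.le
        exact Finset.sum_le_sum (fun i _ => Finset.sum_le_sum (fun j _ => hentry i j))
    _ = 2 * d^7 * N * q^n := by simp [hκ]; ring
    _ ≤ 2 * d^7 * N * (2 * Real.exp (-(γ * (t - s)))) :=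
        mul_le_mul_of_nonneg_left hqn (by positivity)
    _ = 4 * d^7 * Real.exp (-(γ * (t - s))) * N := by ring

theorem main (hd : 2 ≤ d) (hL : Algebra.adjoin ℂ (Set.range L) = ⊤) : HamIndepContractive L := by
  obtain ⟨C, hC, γ, hγ, h⟩ := uniform hd hL
  exact fun H hH E hE => ⟨C, hC, γ, hγ, h H hH E hE⟩

end main

end Pool.Agent.H994.Driven
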